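import Mathlib

set_option autoImplicit false

/-! Two places at infinity of a plane curve with a reducible edge polynomial. -/

open Polynomial

namespace Pool.Agent.K1H93.TC

/-- `x = T Z ^ q`, `s = Z ^ p` -/
noncomputable def Phi (p q : ℕ) : MvPolynomial (Fin 2) ℚ →ₐ[ℚ] ℚ[X][X] :=
  MvPolynomial.aeval ![C X * X ^ q, X ^ p]

lemma Phi_C (p q : ℕ) (c : ℚ) : Phi p q (MvPolynomial.C c) = C (C c) := by
  rw [Phi, MvPolynomial.algHom_C]; rfl

lemma Phi_X0 (p q : ℕ) : Phi p q (MvPolynomial.X 0) = C X * X ^ q := by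
  rw [Phi, MvPolynomial.aeval_X]; rfl

lemma Phi_X1 (p q : ℕ) : Phi p q (MvPolynomial.X 1) = X ^ p := by
  rw [Phi, MvPolynomial.aeval_X]; rfl

lemma expand_dvd {p : ℕ} (hp : 1 ≤ p) {w ρ : ℚ[X]} (hw : w ≠ 0)
    (h : expand ℚ p w ∣ expand ℚ p ρ) : w ∣ ρ := by
  rw [← EuclideanDomain.mod_eq_zero]
  by_contra hne
  have h1 : expand ℚ p (ρ % w) = expand ℚ p ρ - expand ℚ p w * expand ℚ p (ρ / w) := by
    rw [← map_mul, ← map_sub]
    congr 1
    have := EuclideanDomain.mod_add_div ρ w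
    rw [eq_sub_iff_add_eq]; exact this
  have h2 : expand ℚ p w ∣ expand ℚ p (ρ % w) := by
    rw [h1]
    exact dvd_sub h (dvd_mul_right _ _)
  have h3 : expand ℚ p (ρ % w) ≠ 0 := by
    rwa [Ne, expand_eq_zero (by omega)]
  have h4 := natDegree_le_of_dvd h2 h3
  rw [natDegree_expand, natDegree_expand] at h4
  have h5 : (ρ % w).natDegree < w.natDegree :=
    natDegree_lt_natDegree hne (degree_mod_lt ρ hw)
  have h6 := Nat.mul_lt_mul_of_pos_right h5 (show 0 < p by omega)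
  omega

/-- divisibility of the leading coefficients -/
lemma lead_dvd {p q D M : ℕ} (P Q h : MvPolynomial (Fin 2) ℚ) (w : ℚ[X]) (hw : w ≠ 0)
    (hP1 : (Phi p q P).natDegree ≤ D) (hP2 : (Phi p q P).coeff D = w)
    (hh : h = P * Q) (hM : (Phi p q h).natDegree ≤ M) : w ∣ (Phi p q h).coeff M := by
  rw [hh, map_mul] at hM ⊢
  by_cases hQ : Phi p q Q = 0
  · rw [hQ, mul_zero, coeff_zero]; exact dvd_zero _
  have hP0 : Phi p q P ≠ 0 := by
    intro h0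
    rw [h0, coeff_zero] at hP2
    exact hw hP2.symm
  have hPd : (Phi p q P).natDegree = D :=
    le_antisymm hP1 (le_natDegree_of_ne_zero (by rw [hP2]; exact hw))
  rw [natDegree_mul hP0 hQ, hPd] at hM
  obtain ⟨k, rfl⟩ : ∃ k, M = D + k := ⟨M - D, by omega⟩
  rw [coeff_mul_add_eq_of_natDegree_le hP1 (by omega), hP2]
  exact dvd_mul_right _ _

/-- homogenisation -/
noncomputable def hom (p q N : ℕ) (R : MvPolynomial (Fin 2) ℚ) : MvPolynomial (Fin 2) ℚ :=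
  ∑ k ∈ R.support, MvPolynomial.C (R.coeff k) *
    (MvPolynomial.X 0 ^ (p * k 0) * MvPolynomial.X 1 ^ (N - (q * k 0 + k 1)))

lemma Phi_hom (p q N : ℕ) (R : MvPolynomial (Fin 2) ℚ)
    (hN : ∀ k ∈ R.support, q * k 0 + k 1 ≤ N) :
    Phi p q (hom p q N R) = ∑ k ∈ R.support, C (C (R.coeff k) * X ^ (p * k 0)) *
      X ^ (p * (N - k 1)) := by
  rw [hom, map_sum]
  apply Finset.sum_congr rfl
  intro k hk
  have h1 := hN k hk
  rw [map_mul, map_mul, map_pow, map_pow, Phi_C, Phi_X0, Phi_X1, mul_pow, ← pow_mul, ← pow_mul,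
    C_mul, map_pow]
  have h2 : p * (N - k 1) = q * (p * k 0) + p * (N - (q * k 0 + k 1)) := by
    obtain ⟨t, ht⟩ : ∃ t, N = q * k 0 + k 1 + t := ⟨N - (q * k 0 + k 1), by omega⟩
    have e1 : N - k 1 = q * k 0 + t := by omega
    have e2 : N - (q * k 0 + k 1) = t := by omega
    rw [e1, e2]; ring
  rw [h2, pow_add]
  ring

lemma Phi_hom_deg (p q N : ℕ) (R : MvPolynomial (Fin 2) ℚ)
    (hN : ∀ k ∈ R.support, q * k 0 + k 1 ≤ N) : (Phi p q (hom p q N R)).natDegree ≤ p * N := by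
  rw [Phi_hom p q N R hN]
  apply natDegree_sum_le_of_forall_le
  intro k _
  refine (natDegree_C_mul_X_pow_le _ _).trans ?_
  exact Nat.mul_le_mul_left _ (Nat.sub_le _ _)

lemma Phi_hom_coeff (p q N : ℕ) (hp : 1 ≤ p) (R : MvPolynomial (Fin 2) ℚ)
    (hN : ∀ k ∈ R.support, q * k 0 + k 1 ≤ N) :
    (Phi p q (hom p q N R)).coeff (p * N) = expand ℚ p (MvPolynomial.aeval ![X, 0] R) := by
  rw [Phi_hom p q N R hN, finsetSum_coeff, MvPolynomial.aeval_def, MvPolynomial.eval₂_eq',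
    map_sum]
  apply Finset.sum_congr rfl
  intro k hk
  rw [coeff_C_mul, coeff_X_pow, Fin.prod_univ_two, map_mul, map_mul]
  have h1 := hN k hk
  have e1 : (![X, 0] : Fin 2 → ℚ[X]) 0 = X := rfl
  have e2 : (![X, 0] : Fin 2 → ℚ[X]) 1 = 0 := rfl
  rw [e1, e2, map_pow, expand_X, ← pow_mul]
  have e3 : expand ℚ p (algebraMap ℚ ℚ[X] (MvPolynomial.coeff k R)) = C (R.coeff k) := by
    rw [Polynomial.algebraMap_eq, expand_C]
  rw [e3]
  by_cases h2 : k 1 = 0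
  · rw [h2, Nat.sub_zero, if_pos rfl, pow_zero, map_one]; ring
  · rw [if_neg, mul_zero, zero_pow h2, map_zero (expand ℚ p), mul_zero, mul_zero]
    intro h3
    have := Nat.eq_of_mul_eq_mul_left (by omega : 0 < p) h3
    omega

variable {L : Type} [Field L] [Algebra ℚ L]

lemma eval_hom (π : MvPolynomial (Fin 2) ℚ →ₐ[ℚ] L) (p q N : ℕ) (R : MvPolynomial (Fin 2) ℚ)
    (hN : ∀ k ∈ R.support, q * k 0 + k 1 ≤ N) (hs : π (MvPolynomial.X 1) ≠ 0) :
    π (hom p q N R) = π (MvPolynomial.X 1) ^ N * MvPolynomial.aeval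
      ![π (MvPolynomial.X 0) ^ p / π (MvPolynomial.X 1) ^ q, (π (MvPolynomial.X 1))⁻¹] R := by
  rw [hom, map_sum, MvPolynomial.aeval_def, MvPolynomial.eval₂_eq', Finset.mul_sum]
  apply Finset.sum_congr rfl
  intro k hk
  have h1 := hN k hk
  rw [Fin.prod_univ_two, map_mul, map_mul, map_pow, map_pow, MvPolynomial.algHom_C]
  simp only [Matrix.cons_val_zero, Matrix.cons_val_one]
  generalize π (MvPolynomial.X 1) = s at hs ⊢
  generalize π (MvPolynomial.X 0) = x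
  obtain ⟨t, ht⟩ : ∃ t, N = q * k 0 + k 1 + t := ⟨N - (q * k 0 + k 1), by omega⟩
  have e2 : N - (q * k 0 + k 1) = t := by omega
  rw [e2, ht, div_pow, ← pow_mul, ← pow_mul, pow_add, pow_add, inv_pow]
  have h3 : s ^ (q * k 0) ≠ 0 := pow_ne_zero _ hs
  have h4 : s ^ k 1 ≠ 0 := pow_ne_zero _ hs
  generalize s ^ (q * k 0) = α at h3 ⊢
  generalize s ^ k 1 = β at h4 ⊢
  field_simp

/-- `x ^ p / s ^ q` and `1 / s` satisfy no relation at infinity except the edge polynomial -/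
lemma proper (π : MvPolynomial (Fin 2) ℚ →ₐ[ℚ] L) (P : MvPolynomial (Fin 2) ℚ)
    (hker : ∀ h, π h = 0 ↔ P ∣ h) (p q D : ℕ) (hp : 1 ≤ p) (w : ℚ[X]) (hw : w ≠ 0)
    (hP1 : (Phi p q P).natDegree ≤ D) (hP2 : (Phi p q P).coeff D = expand ℚ p w)
    (hs : π (MvPolynomial.X 1) ≠ 0) (R : MvPolynomial (Fin 2) ℚ)
    (hR : MvPolynomial.aeval
      ![π (MvPolynomial.X 0) ^ p / π (MvPolynomial.X 1) ^ q, (π (MvPolynomial.X 1))⁻¹] R = 0) :
    w ∣ MvPolynomial.aeval ![X, 0] R := by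
  obtain ⟨N, hN⟩ : ∃ N, ∀ k ∈ R.support, q * k 0 + k 1 ≤ N :=
    ⟨∑ k ∈ R.support, (q * k 0 + k 1), fun k hk =>
      Finset.single_le_sum (f := fun k : Fin 2 →₀ ℕ => q * k 0 + k 1) (fun _ _ => Nat.zero_le _) hk⟩
  have h1 : π (hom p q N R) = 0 := by
    rw [eval_hom π p q N R hN hs, hR, mul_zero]
  obtain ⟨Q, hQ⟩ := (hker _).1 h1
  have h2 := lead_dvd P Q (hom p q N R) (expand ℚ p w)
    (by rwa [Ne, expand_eq_zero (by omega)]) hP1 hP2 hQ (Phi_hom_deg p q N R hN)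
  rw [Phi_hom_coeff p q N hp R hN] at h2
  exact expand_dvd hp hw h2

lemma X1_ne_zero (π : MvPolynomial (Fin 2) ℚ →ₐ[ℚ] L) (P : MvPolynomial (Fin 2) ℚ)
    (hker : ∀ h, π h = 0 ↔ P ∣ h) (p q D : ℕ) (hp : 1 ≤ p) (w : ℚ[X]) (hw : w ≠ 0)
    (hP2 : (Phi p q P).coeff D = expand ℚ p w) (hD : p < D) : π (MvPolynomial.X 1) ≠ 0 := by
  intro h0
  have h1 : P ∣ MvPolynomial.X 1 := (hker _).1 h0
  obtain ⟨Q, hQ⟩ := h1
  have h2 : Phi p q P * Phi p q Q = X ^ p := by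
    rw [← map_mul, ← hQ, Phi_X1]
  have h6 : (X : ℚ[X][X]) ^ p ≠ 0 := pow_ne_zero _ X_ne_zero
  have h3 : (Phi p q P).natDegree ≤ ((X : ℚ[X][X]) ^ p).natDegree :=
    natDegree_le_of_dvd ⟨_, h2.symm⟩ h6
  rw [natDegree_X_pow] at h3
  have h5 : (Phi p q P).coeff D ≠ 0 := by
    rw [hP2]
    intro h7
    exact hw ((expand_eq_zero (show 0 < p from hp)).1 h7)
  have h4 : D ≤ (Phi p q P).natDegree := le_natDegree_of_ne_zero h5
  exact absurd (lt_of_lt_of_le hD (h4.trans h3)) (lt_irrefl _)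

/-- a place at infinity for every factor of the edge polynomial -/
lemma exists_place (π : MvPolynomial (Fin 2) ℚ →ₐ[ℚ] L) (P : MvPolynomial (Fin 2) ℚ)
    (hker : ∀ h, π h = 0 ↔ P ∣ h) (p q D : ℕ) (hp : 1 ≤ p) (w : ℚ[X]) (hw : w ≠ 0)
    (hP1 : (Phi p q P).natDegree ≤ D) (hP2 : (Phi p q P).coeff D = expand ℚ p w) (hD : p < D)
    (φ : ℚ[X]) (hφ : φ ∣ w) (hφu : ¬ IsUnit φ) :
    ∃ A : ValuationSubring L, (∀ c : ℚ, algebraMap ℚ L c ∈ A) ∧ π (MvPolynomial.X 1) ∉ A ∧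
      π (MvPolynomial.X 0) ^ p / π (MvPolynomial.X 1) ^ q ∈ A ∧
      aeval (π (MvPolynomial.X 0) ^ p / π (MvPolynomial.X 1) ^ q) φ ∈ A.nonunits := by
  have hs := X1_ne_zero π P hker p q D hp w hw hP2 hD
  obtain ⟨ev, hev⟩ : ∃ ev : MvPolynomial (Fin 2) ℚ →ₐ[ℚ] L, ev = MvPolynomial.aeval
    ![π (MvPolynomial.X 0) ^ p / π (MvPolynomial.X 1) ^ q, (π (MvPolynomial.X 1))⁻¹] := ⟨_, rfl⟩
  have hprop : ∀ R, ev R = 0 → w ∣ MvPolynomial.aeval ![X, 0] R := by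
    intro R hR
    rw [hev] at hR
    exact proper π P hker p q D hp w hw hP1 hP2 hs R hR
  have hev0 : ev (MvPolynomial.X 0) = π (MvPolynomial.X 0) ^ p / π (MvPolynomial.X 1) ^ q := by
    rw [hev, MvPolynomial.aeval_X]; rfl
  have hev1 : ev (MvPolynomial.X 1) = (π (MvPolynomial.X 1))⁻¹ := by
    rw [hev, MvPolynomial.aeval_X]; rfl
  clear hev
  generalize π (MvPolynomial.X 0) ^ p / π (MvPolynomial.X 1) ^ q = τ at hev0 ⊢
  generalize π (MvPolynomial.X 1) = s at hs hev1 ⊢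
  have hevφ : ∀ ψ : ℚ[X], ev (aeval (MvPolynomial.X 0) ψ) = aeval τ ψ := by
    intro ψ
    rw [← Polynomial.aeval_algHom_apply, hev0]
  obtain ⟨B, hB⟩ : ∃ B : Subring L, B = ev.range.toSubring := ⟨_, rfl⟩
  have hmem : ∀ R, ev R ∈ B := by
    intro R
    rw [hB]
    exact ⟨R, rfl⟩
  have hmem' : ∀ b : L, b ∈ B → ∃ R, ev R = b := by
    intro b hb
    rw [hB] at hb
    exact hb
  obtain ⟨σ, hσ⟩ : ∃ σ : B, (σ : L) = s⁻¹ := ⟨⟨s⁻¹, by rw [← hev1]; exact hmem _⟩, rfl⟩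
  obtain ⟨θ, hθ⟩ : ∃ θ : B, (θ : L) = aeval τ φ :=
    ⟨⟨aeval τ φ, by rw [← hevφ]; exact hmem _⟩, rfl⟩
  have hI : Ideal.span {σ, θ} ≠ ⊤ := by
    intro htop
    rw [Ideal.eq_top_iff_one, Ideal.mem_span_pair] at htop
    obtain ⟨b1, b2, h1⟩ := htop
    obtain ⟨R1, hR1⟩ := hmem' _ b1.2
    obtain ⟨R2, hR2⟩ := hmem' _ b2.2
    have h2 : (b1 : L) * s⁻¹ + (b2 : L) * aeval τ φ = 1 := by
      have := congrArg (fun z : B => (z : L)) h1
      simpa [hσ, hθ] using this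
    have h3 : ev (R1 * MvPolynomial.X 1 + R2 * aeval (MvPolynomial.X 0) φ - 1) = 0 := by
      rw [map_sub, map_add, map_mul, map_mul, hev1, hevφ, hR1, hR2, h2, map_one, sub_self]
    have h4 := hφ.trans (hprop _ h3)
    rw [map_sub, map_add, map_mul, map_mul, map_one, MvPolynomial.aeval_X] at h4
    have e2 : (![X, 0] : Fin 2 → ℚ[X]) 1 = 0 := rfl
    have e3 : MvPolynomial.aeval (![X, 0] : Fin 2 → ℚ[X])
        (aeval (MvPolynomial.X 0 : MvPolynomial (Fin 2) ℚ) φ) = φ := by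
      rw [← Polynomial.aeval_algHom_apply, MvPolynomial.aeval_X]
      exact Polynomial.aeval_X_left_apply φ
    rw [e2, e3, mul_zero, zero_add] at h4
    apply hφu
    rw [isUnit_iff_dvd_one]
    have h5 := dvd_sub (dvd_mul_left φ (MvPolynomial.aeval (![X, 0] : Fin 2 → ℚ[X]) R2)) h4
    rwa [sub_sub_cancel] at h5
  obtain ⟨A, hA1, hA2⟩ := Ideal.image_subset_nonunits_valuationSubring _ hI
  have hσA : s⁻¹ ∈ A.nonunits := hA2 ⟨σ, Ideal.subset_span (by simp), by rw [← hσ]; rfl⟩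
  refine ⟨A, ?_, ?_, ?_, ?_⟩
  · intro c
    apply hA1
    have := hmem (algebraMap ℚ _ c)
    rwa [AlgHom.commutes] at this
  · rcases (A.inv_mem_nonunits_iff).1 hσA with h | h
    · exact absurd h hs
    · exact h
  · apply hA1
    rw [← hev0]
    exact hmem _
  · exact hA2 ⟨θ, Ideal.subset_span (by simp), by rw [← hθ]; rfl⟩

/-- two coprime factors of the edge polynomial: two places at infinity -/
lemma not_unique (π : MvPolynomial (Fin 2) ℚ →ₐ[ℚ] L) (P : MvPolynomial (Fin 2) ℚ)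
    (hker : ∀ h, π h = 0 ↔ P ∣ h) (p q D : ℕ) (hp : 1 ≤ p) (w : ℚ[X]) (hw : w ≠ 0)
    (hP1 : (Phi p q P).natDegree ≤ D) (hP2 : (Phi p q P).coeff D = expand ℚ p w) (hD : p < D)
    (φ ψ : ℚ[X]) (hφψ : φ * ψ = w) (hφu : ¬ IsUnit φ) (hψu : ¬ IsUnit ψ) (hco : IsCoprime φ ψ)
    (A : ValuationSubring L) (hA : ∀ A' : ValuationSubring L,
        ((∀ q : ℚ, algebraMap ℚ L q ∈ A') ∧
          ¬ (π (MvPolynomial.X 0) ∈ A' ∧ π (MvPolynomial.X 1) ∈ A')) ↔ A' = A) : False := by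
  obtain ⟨A1, h11, h12, h13, h14⟩ := exists_place π P hker p q D hp w hw hP1 hP2 hD φ
    (hφψ ▸ dvd_mul_right _ _) hφu
  obtain ⟨A2, h21, h22, h23, h24⟩ := exists_place π P hker p q D hp w hw hP1 hP2 hD ψ
    (hφψ ▸ dvd_mul_left _ _) hψu
  obtain rfl := (hA A1).1 ⟨h11, fun h => h12 h.2⟩
  obtain rfl := (hA A2).1 ⟨h21, fun h => h22 h.2⟩
  obtain ⟨u, v, huv⟩ := hco
  generalize π (MvPolynomial.X 0) ^ p / π (MvPolynomial.X 1) ^ q = τ at h13 h14 h23 h24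
  have hpol : ∀ g : ℚ[X], aeval τ g ∈ A2 := by
    intro g
    induction g using Polynomial.induction_on' with
    | add f g hf hg => rw [map_add]; exact A2.add_mem _ _ hf hg
    | monomial n c =>
      rw [aeval_monomial]
      exact A2.mul_mem _ _ (h21 c) (pow_mem h23 n)
  have hmul : ∀ z θ : L, z ∈ A2 → θ ∈ A2.nonunits → z * θ ∈ A2.nonunits := by
    intro z θ hz hθ
    rw [ValuationSubring.mem_nonunits_iff] at hθ ⊢
    rw [map_mul]
    have h1 := (A2.valuation_le_one_iff z).2 hz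
    calc A2.valuation z * A2.valuation θ ≤ 1 * A2.valuation θ := mul_le_mul_left h1 _
      _ = A2.valuation θ := one_mul _
      _ < 1 := hθ
  have h1 : (1 : L) ∈ A2.nonunits := by
    have h2 : aeval τ (u * φ + v * ψ) = 1 := by rw [huv, map_one]
    rw [← h2, map_add, map_mul, map_mul]
    exact add_mem (hmul _ _ (hpol u) h14) (hmul _ _ (hpol v) h24)
  rw [ValuationSubring.mem_nonunits_iff, map_one] at h1
  exact lt_irrefl _ h1

end Pool.Agent.K1H93.TC
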