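import Pool.Agent.H322R2.Red2
import Pool.Agent.K1H93.TC.Place

set_option autoImplicit false

/-! The covering `y = d s ^ n` of a plane curve. -/

open Polynomial

namespace Pool.Agent.K1H93.TC

open Pool.Agent.H322R2

/-- `F(x, d s ^ n)` -/
noncomputable def cover (n : ℕ) (d : ℤ) (F : MvPolynomial (Fin 2) ℤ) : MvPolynomial (Fin 2) ℤ :=
  MvPolynomial.aeval ![MvPolynomial.X 0, MvPolynomial.C d * MvPolynomial.X 1 ^ n] F

lemma cover_eq (n : ℕ) (d : ℤ) (F : MvPolynomial (Fin 2) ℤ) :
    cover n d F = ∑ k ∈ F.support, MvPolynomial.monomial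
      (Finsupp.single 0 (k 0) + Finsupp.single 1 (n * k 1)) (F.coeff k * d ^ k 1) := by
  rw [cover, MvPolynomial.aeval_def, MvPolynomial.eval₂_eq']
  apply Finset.sum_congr rfl
  intro k _
  rw [Fin.prod_univ_two]
  simp only [Matrix.cons_val_zero, Matrix.cons_val_one]
  rw [MvPolynomial.monomial_eq, Finsupp.prod_add_index' (by simp) (by intro a b c; exact pow_add _ _ _),
    Finsupp.prod_single_index (by simp), Finsupp.prod_single_index (by simp), mul_pow, ← pow_mul,
    MvPolynomial.algebraMap_eq, map_mul, map_pow]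
  ring

lemma eval_cover (n : ℕ) (d : ℤ) (F : MvPolynomial (Fin 2) ℤ) (x s : ℤ) :
    MvPolynomial.eval ![x, s] (cover n d F) = MvPolynomial.eval ![x, d * s ^ n] F := by
  rw [cover_eq, map_sum, MvPolynomial.eval_eq']
  apply Finset.sum_congr rfl
  intro k _
  rw [MvPolynomial.eval_monomial, Finsupp.prod_add_index' (by simp) (by intro a b c; exact pow_add _ _ _),
    Finsupp.prod_single_index (by simp), Finsupp.prod_single_index (by simp), Fin.prod_univ_two]
  simp only [Matrix.cons_val_zero, Matrix.cons_val_one]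
  rw [mul_pow, ← pow_mul]
  ring

lemma totalDegree_cover_le (n : ℕ) (d : ℤ) (F : MvPolynomial (Fin 2) ℤ) (D : ℕ)
    (hD : ∀ k ∈ F.support, k 0 + n * k 1 ≤ D) : (cover n d F).totalDegree ≤ D := by
  rw [cover_eq]
  apply MvPolynomial.totalDegree_finsetSum_le
  intro k hk
  refine (MvPolynomial.totalDegree_monomial_le _ _).trans ?_
  rw [Finsupp.sum_add_index' (by simp) (by simp), Finsupp.sum_single_index (by simp),
    Finsupp.sum_single_index (by simp)]
  exact hD k hk

lemma len_eq {F : MvPolynomial (Fin 2) ℤ} (S : Finset (Fin 2 →₀ ℕ)) (hS : F.support ⊆ S) :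
    len F = ∑ m ∈ S, (F.coeff m).natAbs := by
  unfold len
  apply Finset.sum_subset hS
  intro m _ hm
  rw [MvPolynomial.notMem_support_iff.1 hm, Int.natAbs_zero]

lemma len_add_le (F G : MvPolynomial (Fin 2) ℤ) : len (F + G) ≤ len F + len G := by
  classical
  rw [len_eq (F.support ∪ G.support) MvPolynomial.support_add,
    len_eq (F.support ∪ G.support) Finset.subset_union_left,
    len_eq (F.support ∪ G.support) Finset.subset_union_right, ← Finset.sum_add_distrib]
  apply Finset.sum_le_sum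
  intro m _
  rw [MvPolynomial.coeff_add]
  exact Int.natAbs_add_le _ _

lemma len_monomial_le (k : Fin 2 →₀ ℕ) (c : ℤ) : len (MvPolynomial.monomial k c) ≤ c.natAbs := by
  classical
  rw [len_eq {k} MvPolynomial.support_monomial_subset, Finset.sum_singleton,
    MvPolynomial.coeff_monomial, if_pos rfl]

lemma len_sum_le {ι : Type*} (s : Finset ι) (f : ι → MvPolynomial (Fin 2) ℤ) :
    len (∑ i ∈ s, f i) ≤ ∑ i ∈ s, len (f i) := by
  classical
  induction s using Finset.induction_on with
  | empty => simp [len]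
  | insert a s ha ih =>
    rw [Finset.sum_insert ha, Finset.sum_insert ha]
    exact (len_add_le _ _).trans (Nat.add_le_add_left ih _)

lemma len_cover_le (n : ℕ) (d : ℤ) (hd : d ≠ 0) (F : MvPolynomial (Fin 2) ℤ) (m : ℕ)
    (hm : ∀ k ∈ F.support, k 1 ≤ m) : len (cover n d F) ≤ len F * d.natAbs ^ m := by
  rw [cover_eq]
  refine (len_sum_le _ _).trans ?_
  rw [len, Finset.sum_mul]
  apply Finset.sum_le_sum
  intro k hk
  refine (len_monomial_le _ _).trans ?_
  rw [Int.natAbs_mul, Int.natAbs_pow]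
  apply Nat.mul_le_mul_left
  exact Nat.pow_le_pow_right (Int.natAbs_pos.2 hd) (hm k hk)

lemma Phi_cover (n p q : ℕ) (d : ℤ) (F : MvPolynomial (Fin 2) ℤ) :
    Phi p q (MvPolynomial.map (Int.castRingHom ℚ) (cover n d F)) =
      ∑ k ∈ F.support, C (C ((F.coeff k * d ^ k 1 : ℤ) : ℚ) * X ^ k 0) *
        X ^ (q * k 0 + p * (n * k 1)) := by
  rw [cover_eq, map_sum, map_sum]
  apply Finset.sum_congr rfl
  intro k _
  rw [MvPolynomial.map_monomial, MvPolynomial.monomial_eq,
    Finsupp.prod_add_index' (by simp) (by intro a b c; exact pow_add _ _ _),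
    Finsupp.prod_single_index (by simp), Finsupp.prod_single_index (by simp), map_mul (Phi p q),
    map_mul (Phi p q), map_pow (Phi p q), map_pow (Phi p q), Phi_C, Phi_X0, Phi_X1, mul_pow,
    ← pow_mul, ← pow_mul, eq_intCast, C_mul, C_pow, pow_add]
  ring

/-- the two vertices of the edge at infinity and strict inequality elsewhere -/
def Edge (n p q r m : ℕ) (F : MvPolynomial (Fin 2) ℤ) : Prop :=
  ∀ k ∈ F.support, k = Finsupp.single 0 (r * p) ∨ k = Finsupp.single 1 m ∨
    q * k 0 + p * (n * k 1) < p * q * r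

lemma Phi_cover_deg {n p q r m : ℕ} {F : MvPolynomial (Fin 2) ℤ} (hF : Edge n p q r m F)
    (hnm : n * m = q * r) (d : ℤ) :
    (Phi p q (MvPolynomial.map (Int.castRingHom ℚ) (cover n d F))).natDegree ≤ p * q * r := by
  rw [Phi_cover]
  apply natDegree_sum_le_of_forall_le
  intro k hk
  refine (natDegree_C_mul_X_pow_le _ _).trans ?_
  rcases hF k hk with h | h | h
  · rw [h]; simp; apply le_of_eq; ring
  · rw [h]; simp; rw [hnm]; apply le_of_eq; ring
  · exact h.le

lemma Phi_cover_coeff {n p q r m : ℕ} {F : MvPolynomial (Fin 2) ℤ} (hF : Edge n p q r m F)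
    (hnm : n * m = q * r) (hr : 1 ≤ r) (hq : 1 ≤ q) (d : ℤ) :
    (Phi p q (MvPolynomial.map (Int.castRingHom ℚ) (cover n d F))).coeff (p * q * r) =
      expand ℚ p (C ((F.coeff (Finsupp.single 0 (r * p)) : ℤ) : ℚ) * X ^ r +
        C ((F.coeff (Finsupp.single 1 m) * d ^ m : ℤ) : ℚ)) := by
  classical
  have hm : 1 ≤ m := by
    rcases Nat.eq_zero_or_pos m with h | h
    · rw [h, mul_zero] at hnm
      have : 0 < q * r := Nat.mul_pos hq hr
      omega
    · exact h
  have hne : (Finsupp.single 0 (r * p) : Fin 2 →₀ ℕ) ≠ Finsupp.single 1 m := by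
    intro h
    have := DFunLike.congr_fun h 1
    simp at this
    omega
  rw [Phi_cover, finsetSum_coeff, map_add, map_mul, map_pow, expand_C, expand_C, expand_X,
    Finset.sum_eq_add (Finsupp.single 0 (r * p)) (Finsupp.single 1 m) hne]
  · rw [coeff_C_mul, coeff_C_mul, coeff_X_pow, coeff_X_pow]
    simp only [Finsupp.single_eq_same]
    have h10 : (Finsupp.single 0 (r * p) : Fin 2 →₀ ℕ) 1 = 0 := by simp
    have h01 : (Finsupp.single 1 m : Fin 2 →₀ ℕ) 0 = 0 := by simp
    rw [h10, h01, if_pos (by ring), if_pos (by rw [hnm]; ring)]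
    rw [pow_zero, pow_zero, mul_one, mul_one, mul_one, mul_one, ← pow_mul, mul_comm r p]
  · intro k hk hk2
    rcases hF k hk with h | h | h
    · exact absurd h hk2.1
    · exact absurd h hk2.2
    · rw [coeff_C_mul, coeff_X_pow, if_neg h.ne', mul_zero]
  · intro h
    rw [MvPolynomial.notMem_support_iff.1 h]
    simp
  · intro h
    rw [MvPolynomial.notMem_support_iff.1 h]
    simp

end Pool.Agent.K1H93.TC
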