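import Mathlib

set_option autoImplicit false

/-! Descent: if `y g = a x ^ n` and `g` is prime to `y` up to `a e`, then `y = d s ^ n` with `d ∣ (a e) ^ (n - 1)`. -/

namespace Pool.Agent.K1H93.TC

/-- the `n`-th power free part -/
lemma pow_free (n : ℕ) (hn : 1 ≤ n) (y : ℕ) (hy : y ≠ 0) :
    ∃ d s : ℕ, y = d * s ^ n ∧ ∀ p : ℕ, p.Prime → ¬ p ^ n ∣ d := by
  induction y using Nat.strong_induction_on with
  | _ y ih =>
    by_cases h : ∃ p : ℕ, p.Prime ∧ p ^ n ∣ y
    · obtain ⟨p, hp, z, hz⟩ := h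
      have hz0 : z ≠ 0 := by rintro rfl; exact hy (by rw [hz, mul_zero])
      have hlt : z < y := by
        rw [hz]
        have : 1 < p ^ n := Nat.one_lt_pow (by omega) hp.one_lt
        nlinarith [Nat.pos_of_ne_zero hz0]
      obtain ⟨d, s, h1, h2⟩ := ih z hlt hz0
      exact ⟨d, p * s, by rw [hz, h1, mul_pow]; ring, h2⟩
    · push Not at h
      exact ⟨y, 1, by simp, fun p hp => h p hp⟩

lemma desc_nat (n : ℕ) (hn : 1 ≤ n) (a e x y g : ℕ) (ha : a ≠ 0) (he : e ≠ 0) (hy : y ≠ 0)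
    (h : y * g = a * x ^ n) (hg : ∀ p : ℕ, p.Prime → p ∣ x → p ∣ y → p ∣ g → p ∣ e) :
    ∃ d s : ℕ, y = d * s ^ n ∧ d ∣ (a * e) ^ (n - 1) ∧ d ≠ 0 := by
  obtain ⟨d, s, h1, h2⟩ := pow_free n hn y hy
  have hd0 : d ≠ 0 := by rintro rfl; exact hy (by rw [h1, zero_mul])
  have hs0 : s ^ n ≠ 0 := by intro h0; exact hy (by rw [h1, h0, mul_zero])
  have hs0' : s ≠ 0 := by rintro rfl; exact hs0 (zero_pow (by omega))
  refine ⟨d, s, h1, ?_, hd0⟩
  have hM : (a * e) ^ (n - 1) ≠ 0 := pow_ne_zero _ (mul_ne_zero ha he)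
  rw [← Nat.factorization_le_iff_dvd hd0 hM]
  intro p
  by_cases hp : p.Prime
  swap
  · rw [Nat.factorization_eq_zero_of_not_prime d hp]; exact Nat.zero_le _
  by_cases hpd : p ∣ d
  swap
  · rw [Nat.factorization_eq_zero_of_not_dvd hpd]; exact Nat.zero_le _
  have hlt : d.factorization p < n := by
    by_contra hc
    push Not at hc
    exact h2 p hp ((hp.pow_dvd_iff_le_factorization hd0).2 hc)
  have hpos : 0 < d.factorization p := hp.factorization_pos_of_dvd hd0 hpd
  have hpM : p ∣ a * e := by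
    by_contra hc
    have hpa : ¬ p ∣ a := fun h => hc (h.mul_right _)
    have hpe : ¬ p ∣ e := fun h => hc (h.mul_left _)
    have hpy : p ∣ y := by rw [h1]; exact hpd.mul_right _
    have hpx : p ∣ x := by
      have : p ∣ a * x ^ n := by rw [← h]; exact hpy.mul_right _
      rcases (hp.dvd_mul).1 this with h3 | h3
      · exact absurd h3 hpa
      · exact hp.dvd_of_dvd_pow h3
    have hpg : ¬ p ∣ g := fun h3 => hpe (hg p hp hpx hpy h3)
    have hg0 : g ≠ 0 := by rintro rfl; exact hpg (dvd_zero _)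
    have hx0 : x ^ n ≠ 0 := by
      intro h0
      rw [h0, mul_zero] at h
      exact mul_ne_zero hy hg0 h
    have e1 : (y * g).factorization p = (a * x ^ n).factorization p := by rw [h]
    rw [Nat.factorization_mul hy hg0, Nat.factorization_mul ha hx0, Finsupp.add_apply, Finsupp.add_apply,
      Nat.factorization_eq_zero_of_not_dvd hpg, Nat.factorization_eq_zero_of_not_dvd hpa, h1,
      Nat.factorization_mul hd0 hs0, Finsupp.add_apply, Nat.factorization_pow, Nat.factorization_pow,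
      Finsupp.smul_apply, Finsupp.smul_apply, smul_eq_mul, smul_eq_mul] at e1
    have e2 : n ∣ d.factorization p := by
      have h3 : n ∣ d.factorization p + n * s.factorization p := by
        rw [show d.factorization p + n * s.factorization p = n * x.factorization p by omega]
        exact dvd_mul_right _ _
      exact (Nat.dvd_add_left (dvd_mul_right _ _)).1 h3
    have := Nat.le_of_dvd hpos e2
    omega
  rw [Nat.factorization_pow, Finsupp.smul_apply, smul_eq_mul]
  have h3 : 1 ≤ (a * e).factorization p := hp.factorization_pos_of_dvd (mul_ne_zero ha he) hpM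
  calc d.factorization p ≤ (n - 1) * 1 := by omega
    _ ≤ _ := Nat.mul_le_mul le_rfl h3

lemma desc (n : ℕ) (hn : 1 ≤ n) (a e x y g : ℤ) (ha : a ≠ 0) (he : e ≠ 0) (hy : y ≠ 0)
    (h : y * g = a * x ^ n) (hg : ∀ p : ℤ, p ∣ x → p ∣ y → p ∣ g → p ∣ e) :
    ∃ d s : ℤ, y = d * s ^ n ∧ d ∣ (a * e) ^ (n - 1) ∧ d ≠ 0 := by
  obtain ⟨d, s, h1, h2, h3⟩ := desc_nat n hn a.natAbs e.natAbs x.natAbs y.natAbs g.natAbs
    (by simpa using ha) (by simpa using he) (by simpa using hy)
    (by rw [← Int.natAbs_mul, h, Int.natAbs_mul, Int.natAbs_pow])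
    (fun p hp h1 h2 h3 => by
      rw [← Int.natCast_dvd] at h1 h2 h3 ⊢
      exact hg p h1 h2 h3)
  have h4 : (d : ℤ) ∣ (a * e) ^ (n - 1) := by
    rw [Int.natCast_dvd, Int.natAbs_pow, Int.natAbs_mul]
    exact h2
  rcases Int.natAbs_eq y with h5 | h5
  · refine ⟨d, s, ?_, h4, by exact_mod_cast h3⟩
    rw [h5, h1]; push_cast; ring
  · refine ⟨-d, s, ?_, (neg_dvd).2 h4, by simpa using h3⟩
    rw [h5, h1]; push_cast; ring

end Pool.Agent.K1H93.TC
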