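import Pool.Agent.Y910.G.P5
import Pool.Agent.K1H93.TC.Cover

set_option autoImplicit false

/-! The bound when the edge polynomial is reducible. -/

open Polynomial

namespace Pool.Agent.K1H93.TC

open Pool.Agent.H322R2

lemma binom_natDegree (A B : ℚ) (hA : A ≠ 0) (r : ℕ) : (C A * X ^ r + C B).natDegree = r := by
  rw [natDegree_add_C, natDegree_C_mul_X_pow r A hA]

lemma binom_split (A B : ℚ) (hA : A ≠ 0) (hB : B ≠ 0) (r : ℕ) (hr : 1 ≤ r)
    (h : ¬ Irreducible (C A * X ^ r + C B)) :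
    ∃ φ ψ : ℚ[X], φ * ψ = C A * X ^ r + C B ∧ ¬ IsUnit φ ∧ ¬ IsUnit ψ ∧ IsCoprime φ ψ := by
  have hw : ¬ IsUnit (C A * X ^ r + C B) := by
    intro hu
    have := natDegree_eq_zero_of_isUnit hu
    rw [binom_natDegree A B hA] at this
    omega
  rw [irreducible_iff] at h
  push Not at h
  obtain ⟨φ, ψ, h1, h2, h3⟩ := h hw
  refine ⟨φ, ψ, h1.symm, h2, h3, ?_⟩
  have hsep : (C A * X ^ r + C B).Separable := by
    have e : C A * X ^ r + C B = C A * (X ^ r - C (-B / A)) := by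
      rw [mul_sub, ← C_mul]
      have : A * (-B / A) = -B := by field_simp
      rw [this, C_neg, sub_neg_eq_add]
    rw [e]
    have h4 : (X ^ r - C (-B / A) : ℚ[X]).Separable :=
      separable_X_pow_sub_C _ (by exact_mod_cast (by omega : r ≠ 0)) (by
        rw [neg_div]; exact neg_ne_zero.2 (div_ne_zero hB hA))
    have h5 : IsUnit (C A) := isUnit_C.2 (isUnit_iff_ne_zero.2 hA)
    exact h4.unit_mul h5
  rw [h1] at hsep
  exact hsep.isCoprime

/-- the coordinate ring over `ℚ` -/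
abbrev Coord (P : MvPolynomial (Fin 2) ℤ) : Type :=
  MvPolynomial (Fin 2) ℚ ⧸ Ideal.span {MvPolynomial.map (Int.castRingHom ℚ) P}

lemma split_aux (p q r : ℕ) (hp : 1 ≤ p) (hq : 1 ≤ q) (hr : 2 ≤ r)
    (C0 : ℕ) (c : IntermediateField ℚ ℝ → ℕ) (P : MvPolynomial (Fin 2) ℤ)
    (hmain : ∀ (L : Type) [Field L] [Algebra ℚ L] (π : MvPolynomial (Fin 2) ℚ →ₐ[ℚ] L),
    (∀ w, π w = 0 ↔ MvPolynomial.map (Int.castRingHom ℚ) P ∣ w) →
    (∀ z : L, ∃ w1 w2, π w2 ≠ 0 ∧ π w2 * z = π w1) →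
    ∀ x y : ℤ, MvPolynomial.eval ![x, y] P = 0 →
      (x.natAbs ≤ (C0 * len P) ^ C0 ∧ y.natAbs ≤ (C0 * len P) ^ C0) ∨
      ∃ A : ValuationSubring L, (∀ A' : ValuationSubring L,
        ((∀ q : ℚ, algebraMap ℚ L q ∈ A') ∧
          ¬ (π (MvPolynomial.X 0) ∈ A' ∧ π (MvPolynomial.X 1) ∈ A')) ↔ A' = A) ∧
        ∃ g : ℚ[X], g.Monic ∧ Irreducible g ∧
          Nonempty (IsLocalRing.ResidueField A ≃+* AdjoinRoot g) ∧
          ∃ η : ℝ, aeval η g = 0 ∧ (g.natDegree ≤ 2 ∨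
            (x.natAbs ≤ (c (IntermediateField.adjoin ℚ {η}) * len P) ^ C0 ∧
              y.natAbs ≤ (c (IntermediateField.adjoin ℚ {η}) * len P) ^ C0)))
    (L : Type) [Field L] [Algebra (Coord P) L] [IsFractionRing (Coord P) L]
    (A B : ℚ) (hA : A ≠ 0) (hB : B ≠ 0)
    (hP1 : (Phi p q (MvPolynomial.map (Int.castRingHom ℚ) P)).natDegree ≤ p * q * r)
    (hP2 : (Phi p q (MvPolynomial.map (Int.castRingHom ℚ) P)).coeff (p * q * r)
      = expand ℚ p (C A * X ^ r + C B))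
    (hred : ¬ Irreducible (C A * X ^ r + C B)) (x y : ℤ) (hxy : MvPolynomial.eval ![x, y] P = 0) :
    x.natAbs ≤ (C0 * len P) ^ C0 ∧ y.natAbs ≤ (C0 * len P) ^ C0 := by
  have : Nontrivial (Coord P) := (algebraMap (Coord P) L).domain_nontrivial
  let _ : Algebra ℚ L :=
    ((algebraMap (Coord P) L).comp (algebraMap ℚ (Coord P))).toAlgebra
  obtain ⟨π, hπ⟩ : ∃ π : MvPolynomial (Fin 2) ℚ →ₐ[ℚ] L, ∀ w, π w
      = algebraMap (Coord P) L (Ideal.Quotient.mk _ w) :=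
    ⟨{ toRingHom := (algebraMap (Coord P) L).comp (Ideal.Quotient.mk _)
       commutes' := fun q => rfl }, fun w => rfl⟩
  have hker : ∀ w, π w = 0 ↔ MvPolynomial.map (Int.castRingHom ℚ) P ∣ w := by
    intro w
    rw [hπ, IsFractionRing.to_map_eq_zero_iff, Ideal.Quotient.eq_zero_iff_mem,
      Ideal.mem_span_singleton]
  have hsurj : ∀ z : L, ∃ w1 w2, π w2 ≠ 0 ∧ π w2 * z = π w1 := by
    intro z
    obtain ⟨a, s, hs, hz⟩ := IsFractionRing.div_surjective (A := Coord P) z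
    obtain ⟨w1, rfl⟩ := Ideal.Quotient.mk_surjective a
    obtain ⟨w2, rfl⟩ := Ideal.Quotient.mk_surjective s
    have hne : π w2 ≠ 0 := by
      rw [hπ]
      exact IsFractionRing.to_map_ne_zero_of_mem_nonZeroDivisors hs
    refine ⟨w1, w2, hne, ?_⟩
    rw [← hz, ← hπ, ← hπ]
    field_simp
  rcases hmain L π hker hsurj x y hxy with h | ⟨V, hV, _⟩
  · exact h
  · exfalso
    obtain ⟨φ, ψ, h1, h2, h3, h4⟩ := binom_split A B hA hB r (by omega) hred
    have hw : (C A * X ^ r + C B : ℚ[X]) ≠ 0 := by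
      intro h0
      have := binom_natDegree A B hA r
      rw [h0, natDegree_zero] at this
      omega
    have hD : p < p * q * r := by
      have h5 : 2 ≤ q * r := le_trans hr (Nat.le_mul_of_pos_left _ hq)
      calc p < p * 2 := by omega
        _ ≤ p * (q * r) := Nat.mul_le_mul_left _ h5
        _ = p * q * r := by ring
    exact not_unique π _ hker p q (p * q * r) hp _ hw hP1 hP2 hD φ ψ h1 h2 h3 h4 V hV

theorem split_bound (p q r : ℕ) (hp : 1 ≤ p) (hq : 1 ≤ q) (hr : 2 ≤ r) (D : ℕ) :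
    ∃ C0 : ℕ, 1 ≤ C0 ∧ ∀ P : MvPolynomial (Fin 2) ℤ, P.totalDegree ≤ D →
      Irreducible (MvPolynomial.map (Int.castRingHom ℚ) P) → ∀ A B : ℚ, A ≠ 0 → B ≠ 0 →
      (Phi p q (MvPolynomial.map (Int.castRingHom ℚ) P)).natDegree ≤ p * q * r →
      (Phi p q (MvPolynomial.map (Int.castRingHom ℚ) P)).coeff (p * q * r)
        = expand ℚ p (C A * X ^ r + C B) →
      ¬ Irreducible (C A * X ^ r + C B) → ∀ x y : ℤ, MvPolynomial.eval ![x, y] P = 0 →
      x.natAbs ≤ (C0 * len P) ^ C0 ∧ y.natAbs ≤ (C0 * len P) ^ C0 := by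
  choose C1 c1 hC using Pool.Agent.Y910.G.main
  refine ⟨1 + ∑ d ∈ Finset.range (D + 1), C1 d, by omega, ?_⟩
  intro P hPD hirr A B hA hB hP1 hP2 hred x y hxy
  have hprime : (Ideal.span {MvPolynomial.map (Int.castRingHom ℚ) P}).IsPrime :=
    (Ideal.span_singleton_prime hirr.ne_zero).2 hirr.prime
  have hdom : IsDomain (Coord P) := Ideal.Quotient.isDomain _
  have h1 := split_aux p q r hp hq hr (C1 P.totalDegree) (c1 P.totalDegree) P
    (fun L _ _ π hk hs x y hxy => hC P.totalDegree P rfl hirr L π hk hs x y hxy)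
    (FractionRing (Coord P)) A B hA hB hP1 hP2 hred x y hxy
  have hP0 : P ≠ 0 := by
    rintro rfl
    rw [map_zero] at hirr
    exact hirr.ne_zero rfl
  have hlen := Pool.Agent.Y910.G.len_pos hP0
  have h2 : C1 P.totalDegree ≤ 1 + ∑ d ∈ Finset.range (D + 1), C1 d := by
    have := Finset.single_le_sum (f := C1) (fun _ _ => Nat.zero_le _)
      (Finset.mem_range.2 (show P.totalDegree < D + 1 by omega))
    omega
  have h3 : (C1 P.totalDegree * len P) ^ C1 P.totalDegree ≤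
      ((1 + ∑ d ∈ Finset.range (D + 1), C1 d) * len P) ^
        (1 + ∑ d ∈ Finset.range (D + 1), C1 d) := by
    refine (Nat.pow_le_pow_left (Nat.mul_le_mul_right _ h2) _).trans ?_
    exact Nat.pow_le_pow_right (Nat.mul_pos (by omega) hlen) h2
  exact ⟨h1.1.trans h3, h1.2.trans h3⟩

end Pool.Agent.K1H93.TC
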