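import Pool.Agent.K1H93.TC.Model
import Pool.Agent.K1H93.TC.Red
import Pool.Agent.K1H93.TC.Desc

set_option autoImplicit false

/-! Elementary facts on the curve `F = 0`, and the descent. -/

open Polynomial

namespace Pool.Agent.K1H93.TC

open Pool.Agent.H322R2

/-- the second order expansion at `y = 0` -/
lemma expand_y (F : MvPolynomial (Fin 2) ℤ) (x y : ℤ) : ∃ t : ℤ,
    MvPolynomial.eval ![x, y] F = MvPolynomial.eval ![x, 0] F
      + y * (MvPolynomial.eval ![x, 0] (MvPolynomial.pderiv 1 F) + y * t) := by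
  induction F using MvPolynomial.induction_on with
  | C a => exact ⟨0, by simp⟩
  | add p q hp hq =>
    obtain ⟨t1, h1⟩ := hp
    obtain ⟨t2, h2⟩ := hq
    refine ⟨t1 + t2, ?_⟩
    rw [map_add, map_add, map_add, map_add, h1, h2]
    ring
  | mul_X p i hp =>
    obtain ⟨t, h⟩ := hp
    fin_cases i
    · refine ⟨t * x, ?_⟩
      simp only [Fin.zero_eta, Fin.isValue, Derivation.leibniz, smul_eq_mul]
      rw [MvPolynomial.pderiv_X_of_ne (by decide)]
      simp only [map_mul, MvPolynomial.eval_X, mul_zero, zero_add,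
        Matrix.cons_val_zero, h]
      ring
    · refine ⟨MvPolynomial.eval ![x, 0] (MvPolynomial.pderiv 1 p) + y * t, ?_⟩
      simp only [Fin.mk_one, Fin.isValue, Derivation.leibniz, smul_eq_mul]
      rw [MvPolynomial.pderiv_X_self]
      simp only [map_mul, MvPolynomial.eval_X, map_add, mul_one, Matrix.cons_val_one, h]
      simp only [Matrix.cons_val_fin_one]
      ring

lemma eval_y0 (F : MvPolynomial (Fin 2) ℤ) (x : ℤ) :
    MvPolynomial.eval ![x, 0] F = (MvPolynomial.aeval ![X, 0] F : ℤ[X]).eval x := by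
  rw [MvPolynomial.aeval_def, MvPolynomial.eval₂_eq', MvPolynomial.eval_eq', eval_finsetSum]
  apply Finset.sum_congr rfl
  intro k _
  rw [Fin.prod_univ_two, Fin.prod_univ_two]
  simp only [Matrix.cons_val_zero, Matrix.cons_val_one]
  rw [eval_mul, eval_mul, eval_pow, eval_pow, eval_X, eval_zero, algebraMap_eq, eval_C]

/-- the descent -/
lemma descent (n : ℕ) (hn : 1 ≤ n) (F : MvPolynomial (Fin 2) ℤ) (h u v : ℤ[X]) (a e : ℤ)
    (ha : a ≠ 0) (he : e ≠ 0) (hF : MvPolynomial.aeval ![X, 0] F = C a * h ^ n)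
    (huv : u * h + v * MvPolynomial.aeval ![X, 0] (MvPolynomial.pderiv 1 F) = C e)
    (x y : ℤ) (hy : y ≠ 0) (hxy : MvPolynomial.eval ![x, y] F = 0) :
    ∃ d s : ℤ, y = d * s ^ n ∧ d ∣ (a * e) ^ (n - 1) ∧ d ≠ 0 := by
  obtain ⟨t, ht⟩ := expand_y F x y
  rw [hxy, eval_y0, hF, eval_mul, eval_C, eval_pow] at ht
  have h1 := desc n hn (-a) e (h.eval x) y
    (MvPolynomial.eval ![x, 0] (MvPolynomial.pderiv 1 F) + y * t) (neg_ne_zero.2 ha) he hy
    (by linarith) (by
      intro p hp1 hp2 hp3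
      have h2 : p ∣ MvPolynomial.eval ![x, 0] (MvPolynomial.pderiv 1 F) := by
        have h3 := dvd_sub hp3 (hp2.mul_right t)
        rwa [add_sub_cancel_right] at h3
      rw [eval_y0] at h2
      have h4 := congrArg (eval x) huv
      rw [eval_add, eval_mul, eval_mul, eval_C] at h4
      rw [← h4]
      exact dvd_add (hp1.mul_left _) (h2.mul_left _))
  obtain ⟨d, s, h2, h3, h4⟩ := h1
  refine ⟨d, s, h2, ?_, h4⟩
  rw [neg_mul, neg_pow] at h3
  have h5 : (a * e) ^ (n - 1) = (-1) ^ (n - 1) * ((-1) ^ (n - 1) * (a * e) ^ (n - 1)) := by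
    rw [← mul_assoc, ← mul_pow]; simp
  rw [h5]
  exact h3.mul_left _

lemma coeff_restrict (F : MvPolynomial (Fin 2) ℤ) (i : ℕ) :
    (MvPolynomial.aeval ![X, 0] F : ℤ[X]).coeff i = F.coeff (Finsupp.single 0 i) := by
  classical
  induction F using MvPolynomial.induction_on' with
  | add p q hp hq => rw [map_add, coeff_add, hp, hq, MvPolynomial.coeff_add]
  | monomial k c =>
    rw [MvPolynomial.aeval_monomial, Finsupp.prod_fintype _ _ (by simp), Fin.prod_univ_two,
      MvPolynomial.coeff_monomial]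
    simp only [Matrix.cons_val_zero, Matrix.cons_val_one]
    rw [algebraMap_eq]
    by_cases h : k 1 = 0
    · rw [h, pow_zero, mul_one, coeff_C_mul, coeff_X_pow]
      by_cases h2 : i = k 0
      · rw [if_pos h2, if_pos, mul_one]
        ext j
        fin_cases j
        · simp [h2]
        · simp [h]
      · rw [if_neg h2, if_neg, mul_zero]
        intro h3
        apply h2
        rw [h3]; simp
    · rw [zero_pow h, mul_zero, mul_zero, coeff_zero, if_neg]
      intro h3
      apply h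
      rw [h3]; simp

lemma natAbs_coeff_le_len (F : MvPolynomial (Fin 2) ℤ) (k : Fin 2 →₀ ℕ) :
    (F.coeff k).natAbs ≤ len F := by
  by_cases hk : k ∈ F.support
  · exact Finset.single_le_sum (f := fun m => (F.coeff m).natAbs) (fun _ _ => Nat.zero_le _) hk
  · rw [MvPolynomial.notMem_support_iff.1 hk]; simp

/-- `x` is bounded in terms of `y` -/
lemma x_bound (F : MvPolynomial (Fin 2) ℤ) (N m : ℕ) (ha : F.coeff (Finsupp.single 0 N) ≠ 0)
    (hF : ∀ k ∈ F.support, k ≠ Finsupp.single 0 N → k 0 < N ∧ k 1 ≤ m)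
    (x y : ℤ) (hxy : MvPolynomial.eval ![x, y] F = 0) :
    x.natAbs ≤ len F * (max 1 y.natAbs) ^ m := by
  classical
  rcases eq_or_ne x 0 with hx | hx
  · rw [hx]; simp
  have hx1 : 1 ≤ x.natAbs := Int.natAbs_pos.2 hx
  have hmem : Finsupp.single 0 N ∈ F.support := MvPolynomial.mem_support_iff.2 ha
  rw [MvPolynomial.eval_eq', ← Finset.add_sum_erase _ _ hmem, Fin.prod_univ_two] at hxy
  simp only [Matrix.cons_val_zero, Matrix.cons_val_one] at hxy
  have h1 : (Finsupp.single 0 N : Fin 2 →₀ ℕ) 1 = 0 := by simp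
  have h2 : (Finsupp.single 0 N : Fin 2 →₀ ℕ) 0 = N := by simp
  rw [h1, h2, pow_zero, mul_one] at hxy
  have hN : 1 ≤ N := by
    by_contra hN
    have hN0 : N = 0 := by omega
    have h3 : F.support.erase (Finsupp.single 0 N) = ∅ := by
      rw [Finset.eq_empty_iff_forall_notMem]
      intro k hk
      rw [Finset.mem_erase] at hk
      have := (hF k hk.2 hk.1).1
      omega
    rw [h3, Finset.sum_empty, add_zero, hN0, pow_zero, mul_one] at hxy
    rw [hN0] at ha
    exact ha hxy
  have h3 : F.coeff (Finsupp.single 0 N) * x ^ N =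
      -∑ k ∈ F.support.erase (Finsupp.single 0 N), F.coeff k * ∏ i, ![x, y] i ^ k i := by
    linarith
  have h4 : x.natAbs ^ N ≤ ∑ k ∈ F.support.erase (Finsupp.single 0 N),
      (F.coeff k).natAbs * (x.natAbs ^ (N - 1) * (max 1 y.natAbs) ^ m) := by
    calc x.natAbs ^ N ≤ (F.coeff (Finsupp.single 0 N)).natAbs * x.natAbs ^ N :=
          Nat.le_mul_of_pos_left _ (Int.natAbs_pos.2 ha)
      _ = (F.coeff (Finsupp.single 0 N) * x ^ N).natAbs := by
          rw [Int.natAbs_mul, Int.natAbs_pow]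
      _ = (∑ k ∈ F.support.erase (Finsupp.single 0 N),
            F.coeff k * ∏ i, ![x, y] i ^ k i).natAbs := by rw [h3, Int.natAbs_neg]
      _ ≤ ∑ k ∈ F.support.erase (Finsupp.single 0 N),
            (F.coeff k * ∏ i, ![x, y] i ^ k i).natAbs := Int.natAbs_sum_le _ _
      _ ≤ _ := by
          apply Finset.sum_le_sum
          intro k hk
          rw [Finset.mem_erase] at hk
          obtain ⟨h5, h6⟩ := hF k hk.2 hk.1
          rw [Fin.prod_univ_two]
          simp only [Matrix.cons_val_zero, Matrix.cons_val_one]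
          rw [Int.natAbs_mul, Int.natAbs_mul, Int.natAbs_pow, Int.natAbs_pow]
          apply Nat.mul_le_mul_left
          apply Nat.mul_le_mul
          · exact Nat.pow_le_pow_right hx1 (by omega)
          · exact (Nat.pow_le_pow_left (le_max_right _ _) _).trans
              (Nat.pow_le_pow_right (lt_of_lt_of_le Nat.one_pos (le_max_left _ _)) h6)
  rw [← Finset.sum_mul] at h4
  have h5 : ∑ k ∈ F.support.erase (Finsupp.single 0 N), (F.coeff k).natAbs ≤ len F :=
    Finset.sum_le_sum_of_subset (Finset.erase_subset _ _)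
  have h6 : x.natAbs ^ (N - 1) * x.natAbs ≤ x.natAbs ^ (N - 1) * (len F * (max 1 y.natAbs) ^ m) := by
    calc x.natAbs ^ (N - 1) * x.natAbs = x.natAbs ^ N := by
          rw [← pow_succ]; congr 1; omega
      _ ≤ _ := h4
      _ ≤ len F * (x.natAbs ^ (N - 1) * (max 1 y.natAbs) ^ m) := Nat.mul_le_mul_right _ h5
      _ = _ := by ring
  exact Nat.le_of_mul_le_mul_left h6 (Nat.pow_pos hx1)

end Pool.Agent.K1H93.TC
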