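import Pool.Agent.K1H93.TC.Prime2

set_option autoImplicit false

/-! The final statements. -/

open Polynomial IntermediateField

namespace Pool.Agent.K1H93.TC

open Pool.Agent.H322R2

theorem main1 (n κ m : ℕ) (hn : 2 ≤ n) (hκ : 1 ≤ κ) (hm : 1 ≤ m) :
    ∃ (C0 : ℕ) (c : IntermediateField ℚ ℝ → ℕ),
      ∀ (F : MvPolynomial (Fin 2) ℤ) (h u v : ℤ[X]) (a e : ℤ),
      Cls n κ m F → h.natDegree = κ → a ≠ 0 → MvPolynomial.aeval ![X, 0] F = C a * h ^ n →
      F.coeff (Finsupp.single 1 m) ≠ 0 → e ≠ 0 →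
      u * h + v * MvPolynomial.aeval ![X, 0] (MvPolynomial.pderiv 1 F) = C e →
      (∀ d : ℤ, d ∣ (a * e) ^ (n - 1) → ¬ Irreducible (bin n κ m F d) →
        Irreducible (MvPolynomial.map (Int.castRingHom ℚ) (cover n d F)) ∨
        (κ = 1 ∧ n.Prime ∧
          ∀ q : ℚ[X], MvPolynomial.aeval ![q, C (d : ℚ) * X ^ n] F ≠ 0)) →
      ∀ x y : ℤ, MvPolynomial.eval ![x, y] F = 0 →
        max x.natAbs y.natAbs ≤ (C0 * (e.natAbs * len F)) ^ C0 ∨
        ∃ d : ℤ, d ∣ (a * e) ^ (n - 1) ∧ Irreducible (bin n κ m F d) ∧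
          ∃ η : ℝ, aeval η (bin n κ m F d) = 0 ∧
            (n * Nat.gcd κ m = 2 ∨
              max x.natAbs y.natAbs ≤ (c ℚ⟮η⟯ * (e.natAbs * len F)) ^ C0) := by
  obtain ⟨C0, c, _, hg⟩ := gen n κ m hn hκ hm
  refine ⟨C0, c, ?_⟩
  intro F h u v a e hcls hdeg ha hF hb he huv hirr x y hxy
  have hh0 : h ≠ 0 := by
    rintro rfl
    rw [natDegree_zero] at hdeg
    omega
  have hlead : F.coeff (Finsupp.single 0 (n * κ)) = a * h.leadingCoeff ^ n := by
    rw [← coeff_restrict, hF, coeff_C_mul, ← hdeg, coeff_pow_mul_natDegree]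
  have ha' : F.coeff (Finsupp.single 0 (n * κ)) ≠ 0 := by
    rw [hlead]
    exact mul_ne_zero ha (pow_ne_zero _ (leadingCoeff_ne_zero.2 hh0))
  have hirr2 : ∀ d : ℤ, d ∣ (a * e) ^ (n - 1) → ¬ Irreducible (bin n κ m F d) →
      Irreducible (MvPolynomial.map (Int.castRingHom ℚ) (cover n d F)) := by
    intro d hd hred
    rcases hirr d hd hred with h1 | ⟨rfl, hp, hq⟩
    · exact h1
    · have hd0 : d ≠ 0 := by
        rintro rfl
        exact pow_ne_zero _ (mul_ne_zero ha he) (zero_dvd_iff.1 hd)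
      exact cover_irreducible n m hp hm F hcls ha' hb d hd0 hred hq
  rcases hg F h u v a e hcls hdeg ha hF hb he huv hirr2 x y hxy with h1 | ⟨d, h1, h2, η, h3, h4⟩
  · exact Or.inl h1
  · right
    refine ⟨d, h1, h2, η, ?_, ?_⟩
    · rw [bin, map_add, map_mul, map_pow, aeval_X, aeval_C, aeval_C]
      simp only [eq_ratCast]
      push_cast
      exact h3
    · rcases h4 with h4 | h4
      · left
        have : 1 ≤ Nat.gcd κ m := Nat.gcd_pos_of_pos_left _ hκ
        have : 2 ≤ n * Nat.gcd κ m := le_trans hn (Nat.le_mul_of_pos_right _ this)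
        omega
      · exact Or.inr h4

/-- no irreducible binomial with a real root when the coefficients are `± 1` and `± β ^ r` -/
lemma no_alt (r β : ℕ) (hr : 2 ≤ r) (A B : ℤ) (hA : A.natAbs = 1) (hB : B.natAbs = β ^ r) (η : ℝ)
    (hη : (A : ℝ) * η ^ r + B = 0) : ¬ Irreducible (C (A : ℚ) * X ^ r + C (B : ℚ)) := by
  intro hirr
  have hA0 : (A : ℚ) ≠ 0 := by
    have : A ≠ 0 := by rintro rfl; simp at hA
    exact_mod_cast this
  obtain ⟨ρ, hρ⟩ : ∃ ρ : ℤ, A * ρ ^ r + B = 0 := by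
    have hA' : A = 1 ∨ A = -1 := Int.natAbs_eq_iff.1 hA |>.imp (by simp) (by simp)
    have hB' : B = (β : ℤ) ^ r ∨ B = -(β : ℤ) ^ r := by
      have := Int.natAbs_eq_iff.1 hB
      push_cast at this
      exact this
    have hηB : ∀ s : ℤ, A * s + B = 0 → (η : ℝ) ^ r = s := by
      intro s hs
      have h1 : (A : ℝ) * s + B = 0 := by exact_mod_cast hs
      have h2 : (A : ℝ) ≠ 0 := by exact_mod_cast hA0
      have h3 : (A : ℝ) * η ^ r = A * s := by linarith
      exact mul_left_cancel₀ h2 h3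
    -- `η ^ r = ± β ^ r`
    have h0 : A * (β : ℤ) ^ r + B = 0 ∨ A * (-(β : ℤ) ^ r) + B = 0 := by
      rcases hA' with rfl | rfl <;> rcases hB' with rfl | rfl
      · right; ring
      · left; ring
      · left; ring
      · right; ring
    rcases h0 with h0 | h0
    · exact ⟨β, h0⟩
    · rcases Nat.even_or_odd r with he | ho
      · have h1 := hηB _ h0
        have h2 : (0 : ℝ) ≤ η ^ r := he.pow_nonneg η
        have h3 : (0 : ℝ) ≤ (β : ℝ) ^ r := by positivity
        have h4 : ((-(β : ℤ) ^ r : ℤ) : ℝ) = -(β : ℝ) ^ r := by push_cast; ring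
        rw [h4] at h1
        have h5 : (β : ℝ) ^ r = 0 := by linarith
        have h6 : (β : ℤ) ^ r = 0 := by exact_mod_cast h5
        refine ⟨β, ?_⟩
        rw [h6] at h0 ⊢
        simpa using h0
      · refine ⟨-β, ?_⟩
        rw [ho.neg_pow]
        exact h0
  have hroot : (C (A : ℚ) * X ^ r + C (B : ℚ)).IsRoot (ρ : ℚ) := by
    rw [IsRoot.def, eval_add, eval_mul, eval_C, eval_C, eval_pow, eval_X]
    exact_mod_cast hρ
  have h1 := degree_eq_one_of_irreducible_of_root hirr hroot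
  have h2 : (C (A : ℚ) * X ^ r + C (B : ℚ)).natDegree = 1 := natDegree_eq_of_degree_eq_some h1
  rw [binom_natDegree _ _ hA0] at h2
  omega

lemma coeff_pderiv_zero (F : MvPolynomial (Fin 2) ℤ) :
    (MvPolynomial.pderiv 1 F).coeff 0 = F.coeff (Finsupp.single 1 1) := by
  classical
  induction F using MvPolynomial.induction_on' with
  | add p q hp hq => rw [map_add, MvPolynomial.coeff_add, hp, hq, MvPolynomial.coeff_add]
  | monomial k c =>
    rw [MvPolynomial.pderiv_monomial, MvPolynomial.coeff_monomial, MvPolynomial.coeff_monomial]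
    by_cases h : k = Finsupp.single 1 1
    · rw [if_pos h, h, if_pos (by simp)]
      simp
    · rw [if_neg h]
      by_cases h1 : k 1 = 0
      · rw [h1]; simp
      · rw [if_neg]
        intro h2
        apply h
        have e0 := DFunLike.congr_fun h2 0
        have e1 := DFunLike.congr_fun h2 1
        simp at e0 e1
        ext j
        fin_cases j
        · simp [e0]
        · simp; omega

theorem main2 (n m : ℕ) (hn : n.Prime) (hm : 1 ≤ m) :
    ∃ C0 : ℕ, ∀ F : MvPolynomial (Fin 2) ℤ,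
      (∀ k ∈ F.support, k = Finsupp.single 0 n ∨ k = Finsupp.single 1 m ∨
        (1 ≤ k 1 ∧ m * k 0 + n * k 1 < m * n)) →
      (F.coeff (Finsupp.single 0 n)).natAbs = 1 →
      (F.coeff (Finsupp.single 1 1)).natAbs = 1 →
      (∃ β : ℕ, 1 ≤ β ∧ (F.coeff (Finsupp.single 1 m)).natAbs = β ^ n) →
      (∀ q : ℚ[X], MvPolynomial.aeval ![q, X ^ n] F ≠ 0 ∧ MvPolynomial.aeval ![q, -X ^ n] F ≠ 0) →
      ∀ x y : ℤ, MvPolynomial.eval ![x, y] F = 0 →
        max x.natAbs y.natAbs ≤ (C0 * len F) ^ C0 := by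
  obtain ⟨C0, c, hg⟩ := main1 n 1 m hn.two_le le_rfl hm
  refine ⟨C0, ?_⟩
  intro F hF ha he hb hq x y hxy
  obtain ⟨β, hβ, hb⟩ := hb
  obtain ⟨a, haa⟩ : ∃ a, a = F.coeff (Finsupp.single 0 n) := ⟨_, rfl⟩
  obtain ⟨e, hee⟩ : ∃ e, e = F.coeff (Finsupp.single 1 1) := ⟨_, rfl⟩
  rw [← haa] at ha
  rw [← hee] at he
  have ha0 : a ≠ 0 := by rintro rfl; simp at ha
  have he0 : e ≠ 0 := by rintro rfl; simp at he
  have hb0 : F.coeff (Finsupp.single 1 m) ≠ 0 := by
    intro h0
    rw [h0, Int.natAbs_zero] at hb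
    exact absurd hb.symm (pow_ne_zero _ (by omega))
  have hcls : Cls n 1 m F := by
    intro k hk
    rw [mul_one]
    rcases hF k hk with h | h | h
    · exact Or.inl h
    · exact Or.inr (Or.inl h)
    · exact Or.inr (Or.inr h.2)
  have hline : (MvPolynomial.aeval ![X, 0] F : ℤ[X]) = C a * X ^ n := by
    ext i
    rw [coeff_restrict, coeff_C_mul, coeff_X_pow]
    by_cases hi : i = n
    · rw [if_pos hi, hi, mul_one, haa]
    · rw [if_neg hi, mul_zero, ← MvPolynomial.notMem_support_iff]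
      intro hmem
      rcases hF _ hmem with h | h | h
      · have := DFunLike.congr_fun h 0
        simp at this
        exact hi this
      · have := DFunLike.congr_fun h 1
        simp at this
        omega
      · have := h.1
        simp at this
  obtain ⟨u, hu⟩ : ∃ u : ℤ[X], u * X + 1 * MvPolynomial.aeval ![X, 0] (MvPolynomial.pderiv 1 F)
      = C e := by
    obtain ⟨u, hu⟩ := X_dvd_sub_C (p := (MvPolynomial.aeval ![X, 0] (MvPolynomial.pderiv 1 F) : ℤ[X]))
    refine ⟨-u, ?_⟩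
    have h1 : (MvPolynomial.aeval ![X, 0] (MvPolynomial.pderiv 1 F) : ℤ[X]).coeff 0 = e := by
      rw [coeff_restrict, Finsupp.single_zero, coeff_pderiv_zero, hee]
    rw [h1] at hu
    rw [one_mul, neg_mul, mul_comm u, ← hu]
    ring
  have hdn : ∀ d : ℤ, d ∣ (a * e) ^ (n - 1) → d = 1 ∨ d = -1 := by
    intro d hd
    have h1 : IsUnit ((a * e) ^ (n - 1)) :=
      ((Int.isUnit_iff_natAbs_eq.2 ha).mul (Int.isUnit_iff_natAbs_eq.2 he)).pow _
    exact Int.isUnit_iff.1 (isUnit_of_dvd_unit hd h1)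
  have h1 := hg F X u 1 a e hcls natDegree_X ha0 hline hb0 he0 hu (by
    intro d hd _
    right
    refine ⟨rfl, hn, ?_⟩
    intro q
    rcases hdn d hd with rfl | rfl
    · rw [Int.cast_one, C_1, one_mul]; exact (hq q).1
    · rw [Int.cast_neg, Int.cast_one, C_neg, C_1, neg_one_mul]; exact (hq q).2) x y hxy
  rcases h1 with h1 | ⟨d, hd, hirr, η, hη, _⟩
  · rw [he, one_mul] at h1
    exact h1
  · exfalso
    rw [bin, Nat.gcd_one_left, mul_one, ← haa] at hirr hη
    refine no_alt n β hn.two_le a (F.coeff (Finsupp.single 1 m) * d ^ m) ha ?_ η ?_ hirr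
    · rw [Int.natAbs_mul, hb]
      have : (d ^ m).natAbs = 1 := by
        rw [Int.natAbs_pow]
        rcases hdn d hd with rfl | rfl <;> simp
      rw [this, mul_one]
    · rw [map_add, map_mul, map_pow, aeval_X, aeval_C, aeval_C] at hη
      simp only [eq_ratCast] at hη
      push_cast at hη ⊢
      exact hη

end Pool.Agent.K1H93.TC
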