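import Pool.Agent.K1H93.TC.Base

set_option autoImplicit false

/-! The general bound. -/

open Polynomial IntermediateField

namespace Pool.Agent.K1H93.TC

open Pool.Agent.H322R2

/-- the conditions on the monomials of `F` -/
def Cls (n κ m : ℕ) (F : MvPolynomial (Fin 2) ℤ) : Prop :=
  ∀ k ∈ F.support, k = Finsupp.single 0 (n * κ) ∨ k = Finsupp.single 1 m ∨
    m * k 0 + n * κ * k 1 < m * (n * κ)

lemma Cls.edge {n κ m : ℕ} {F : MvPolynomial (Fin 2) ℤ} (h : Cls n κ m F)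
    {g p q : ℕ} (hκg : κ = g * p) (hmg : m = g * q) :
    Edge n p q (n * g) m F := by
  intro k hk
  rcases h k hk with h1 | h1 | h1
  · left
    rw [h1, hκg]
    congr 1
    ring
  · exact Or.inr (Or.inl h1)
  · right; right
    rw [hκg, hmg] at h1
    have h2 : g * (q * k 0 + p * (n * k 1)) < g * (p * q * (n * g)) := by
      calc g * (q * k 0 + p * (n * k 1)) = g * q * k 0 + n * (g * p) * k 1 := by ring
        _ < g * q * (n * (g * p)) := h1
        _ = g * (p * q * (n * g)) := by ring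
    exact Nat.lt_of_mul_lt_mul_left h2

lemma Cls.bound {n κ m : ℕ} {F : MvPolynomial (Fin 2) ℤ} (h : Cls n κ m F) (hn : 1 ≤ n)
    (hκ : 1 ≤ κ) {k : Fin 2 →₀ ℕ} (hk : k ∈ F.support) :
    k 0 ≤ n * κ ∧ k 1 ≤ m ∧ (k ≠ Finsupp.single 0 (n * κ) → k 0 < n * κ) := by
  have hN : 1 ≤ n * κ := Nat.mul_pos hn hκ
  rcases h k hk with h1 | h1 | h1
  · rw [h1]; simp
  · rw [h1]; simp; omega
  · have h2 : k 0 < n * κ := by
      have : m * k 0 < m * (n * κ) := lt_of_le_of_lt (Nat.le_add_right _ _) h1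
      exact Nat.lt_of_mul_lt_mul_left this
    have h3 : k 1 < m := by
      have : n * κ * k 1 < n * κ * m := by
        calc n * κ * k 1 ≤ m * k 0 + n * κ * k 1 := Nat.le_add_left _ _
          _ < m * (n * κ) := h1
          _ = n * κ * m := by ring
      exact Nat.lt_of_mul_lt_mul_left this
    exact ⟨h2.le, h3.le, fun _ => h2⟩

/-- the arithmetic of the final bound -/
lemma fin_arith (n m k Z B d s x y : ℕ) (hZ : 1 ≤ Z) (hB : B ≤ Z)
    (hd : d ≤ Z ^ (n - 1)) (hs : s ≤ Z ^ k) (hy : y = d * s ^ n) (hx : x ≤ B * (max 1 y) ^ m) :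
    max x y ≤ Z ^ (1 + (m + 1) * (n - 1 + k * n)) := by
  have h1 : y ≤ Z ^ (n - 1 + k * n) := by
    rw [hy, pow_add, pow_mul]
    exact Nat.mul_le_mul hd (Nat.pow_le_pow_left hs _)
  have h2 : max 1 y ≤ Z ^ (n - 1 + k * n) := max_le (Nat.one_le_pow _ _ hZ) h1
  have h3 : x ≤ Z ^ (1 + m * (n - 1 + k * n)) := by
    refine hx.trans ?_
    rw [pow_add, pow_one, mul_comm m, pow_mul]
    exact Nat.mul_le_mul hB (Nat.pow_le_pow_left h2 _)
  apply max_le
  · refine h3.trans (Nat.pow_le_pow_right hZ ?_)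
    have : m * (n - 1 + k * n) ≤ (m + 1) * (n - 1 + k * n) := Nat.mul_le_mul_right _ (by omega)
    omega
  · refine h1.trans (Nat.pow_le_pow_right hZ ?_)
    have : 1 * (n - 1 + k * n) ≤ (m + 1) * (n - 1 + k * n) := Nat.mul_le_mul_right _ (by omega)
    omega

/-- the reduced binomial at infinity -/
noncomputable def bin (n κ m : ℕ) (F : MvPolynomial (Fin 2) ℤ) (d : ℤ) : ℚ[X] :=
  C ((F.coeff (Finsupp.single 0 (n * κ)) : ℤ) : ℚ) * X ^ (n * Nat.gcd κ m) +
    C ((F.coeff (Finsupp.single 1 m) * d ^ m : ℤ) : ℚ)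

theorem gen (n κ m : ℕ) (hn : 2 ≤ n) (hκ : 1 ≤ κ) (hm : 1 ≤ m) :
    ∃ (C0 : ℕ) (c : IntermediateField ℚ ℝ → ℕ), 1 ≤ C0 ∧
      ∀ (F : MvPolynomial (Fin 2) ℤ) (h u v : ℤ[X]) (a e : ℤ),
      Cls n κ m F → h.natDegree = κ → a ≠ 0 → MvPolynomial.aeval ![X, 0] F = C a * h ^ n →
      F.coeff (Finsupp.single 1 m) ≠ 0 → e ≠ 0 →
      u * h + v * MvPolynomial.aeval ![X, 0] (MvPolynomial.pderiv 1 F) = C e →
      (∀ d : ℤ, d ∣ (a * e) ^ (n - 1) → ¬ Irreducible (bin n κ m F d) →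
        Irreducible (MvPolynomial.map (Int.castRingHom ℚ) (cover n d F))) →
      ∀ x y : ℤ, MvPolynomial.eval ![x, y] F = 0 →
        max x.natAbs y.natAbs ≤ (C0 * (e.natAbs * len F)) ^ C0 ∨
        ∃ d : ℤ, d ∣ (a * e) ^ (n - 1) ∧ Irreducible (bin n κ m F d) ∧
          ∃ η : ℝ, ((F.coeff (Finsupp.single 0 (n * κ)) : ℤ) : ℝ) * η ^ (n * Nat.gcd κ m) +
            ((F.coeff (Finsupp.single 1 m) : ℤ) : ℝ) * (d : ℝ) ^ m = 0 ∧
            (n * Nat.gcd κ m ≤ 2 ∨
              max x.natAbs y.natAbs ≤ (c ℚ⟮η⟯ * (e.natAbs * len F)) ^ C0) := by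
  obtain ⟨g, hg⟩ : ∃ g, g = Nat.gcd κ m := ⟨_, rfl⟩
  have hg1 : 1 ≤ g := by rw [hg]; exact Nat.gcd_pos_of_pos_left _ hκ
  obtain ⟨p, hκg⟩ : g ∣ κ := hg ▸ Nat.gcd_dvd_left κ m
  obtain ⟨q, hmg⟩ : g ∣ m := hg ▸ Nat.gcd_dvd_right κ m
  have hp : 1 ≤ p := by
    rcases Nat.eq_zero_or_pos p with h | h
    · rw [h, mul_zero] at hκg; omega
    · exact h
  have hq : 1 ≤ q := by
    rcases Nat.eq_zero_or_pos q with h | h
    · rw [h, mul_zero] at hmg; omega
    · exact h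
  have hpq : Nat.Coprime p q := by
    have h1 : Nat.gcd (g * p) (g * q) = g * Nat.gcd p q := Nat.gcd_mul_left _ _ _
    rw [← hκg, ← hmg, ← hg] at h1
    have h2 : g * 1 = g * Nat.gcd p q := by rw [mul_one]; exact h1
    exact (Nat.eq_of_mul_eq_mul_left hg1 h2).symm
  obtain ⟨r, hr⟩ : ∃ r, r = n * g := ⟨_, rfl⟩
  have hr2 : 2 ≤ r := by
    rw [hr]
    calc 2 ≤ n := hn
      _ ≤ n * g := Nat.le_mul_of_pos_right _ hg1
  have hrp : r * p = n * κ := by rw [hr, hκg]; ring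
  have hnm : n * m = q * r := by rw [hr, hmg]; ring
  obtain ⟨C1, hC1, hsplit⟩ := split_bound p q r hp hq hr2 (n * κ + n * m)
  obtain ⟨C2, c2, hc2, hirrb⟩ := irr_bound n p q r m hnm (by omega) hp hq (by omega) hpq
  obtain ⟨E1, hE1⟩ : ∃ E1, E1 = 1 + (m + 1) * (n - 1 + ((1 + (n - 1) * m) * C1) * n) := ⟨_, rfl⟩
  obtain ⟨K, hK⟩ : ∃ K, K = 1 + (n - 1) * m + n * κ := ⟨_, rfl⟩
  obtain ⟨E2, hE2⟩ : ∃ E2, E2 = 1 + (m + 1) * (n - 1 + (K * C2) * n) := ⟨_, rfl⟩
  refine ⟨C1 + 4 + E1 + E2, fun L => 4 * ⌈c2 L⌉₊, by omega, ?_⟩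
  intro F h u v a e hcls hdeg ha hF hb he huv hirr x y hxy
  have hN : 1 ≤ n * κ := Nat.mul_pos (by omega) hκ
  have hh0 : h ≠ 0 := by
    rintro rfl
    rw [natDegree_zero] at hdeg
    omega
  -- the leading coefficient
  have hlead : F.coeff (Finsupp.single 0 (n * κ)) = a * h.leadingCoeff ^ n := by
    rw [← coeff_restrict, hF, coeff_C_mul, ← hdeg, coeff_pow_mul_natDegree]
  have ha' : F.coeff (Finsupp.single 0 (n * κ)) ≠ 0 := by
    rw [hlead]
    exact mul_ne_zero ha (pow_ne_zero _ (leadingCoeff_ne_zero.2 hh0))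
  have halen : a.natAbs ≤ len F := by
    refine le_trans ?_ (natAbs_coeff_le_len F (Finsupp.single 0 (n * κ)))
    rw [hlead, Int.natAbs_mul]
    apply Nat.le_mul_of_pos_right
    exact Int.natAbs_pos.2 (pow_ne_zero _ (leadingCoeff_ne_zero.2 hh0))
  have hlen1 : 1 ≤ len F := (Int.natAbs_pos.2 ha).trans_le halen
  have he1 : 1 ≤ e.natAbs := Int.natAbs_pos.2 he
  obtain ⟨B, hB⟩ : ∃ B, B = e.natAbs * len F := ⟨_, rfl⟩
  have hB1 : 1 ≤ B := by rw [hB]; exact Nat.mul_pos he1 hlen1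
  have hlenB : len F ≤ B := by rw [hB]; exact Nat.le_mul_of_pos_left _ he1
  have haeB : (a * e).natAbs ≤ B := by
    rw [hB, Int.natAbs_mul, mul_comm]
    exact Nat.mul_le_mul_left _ halen
  have hxB : x.natAbs ≤ B * (max 1 y.natAbs) ^ m := by
    refine (x_bound F (n * κ) m ha' ?_ x y hxy).trans (Nat.mul_le_mul_right _ hlenB)
    intro k hk hk2
    have h1 := hcls.bound (by omega) hκ hk
    exact ⟨h1.2.2 hk2, h1.2.1⟩
  rw [← hB]
  have hmono : ∀ A E : ℕ, A ≤ C1 + 4 + E1 + E2 → E ≤ C1 + 4 + E1 + E2 →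
      (A * B) ^ E ≤ ((C1 + 4 + E1 + E2) * B) ^ (C1 + 4 + E1 + E2) := by
    intro A E hA hE
    refine (Nat.pow_le_pow_left (Nat.mul_le_mul_right B hA) _).trans ?_
    exact Nat.pow_le_pow_right (Nat.mul_pos (by omega) hB1) hE
  by_cases hy : y = 0
  · left
    have h1 : max x.natAbs y.natAbs ≤ (1 * B) ^ 1 := by
      rw [hy] at hxB ⊢
      simp at hxB ⊢
      exact hxB
    exact h1.trans (hmono 1 1 (by omega) (by omega))
  obtain ⟨d, s, hyd, hdd, hd0⟩ := descent n (by omega) F h u v a e ha he hF huv x y hy hxy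
  have hdB : d.natAbs ≤ B ^ (n - 1) := by
    have h1 : d.natAbs ≤ ((a * e) ^ (n - 1)).natAbs :=
      Nat.le_of_dvd (Int.natAbs_pos.2 (pow_ne_zero _ (mul_ne_zero ha he))) (Int.natAbs_dvd_natAbs.2 hdd)
    rw [Int.natAbs_pow] at h1
    exact h1.trans (Nat.pow_le_pow_left haeB _)
  have hyd' : y.natAbs = d.natAbs * s.natAbs ^ n := by
    rw [hyd, Int.natAbs_mul, Int.natAbs_pow]
  have hedge := hcls.edge hκg hmg
  rw [← hr] at hedge
  have hxs : MvPolynomial.eval ![x, d * s ^ n] F = 0 := by rw [← hyd]; exact hxy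
  have hbin : bin n κ m F d = C ((lcx r p F : ℤ) : ℚ) * X ^ r +
      C ((F.coeff (Finsupp.single 1 m) * d ^ m : ℤ) : ℚ) := by
    rw [bin, lcx, hrp, ← hg, ← hr]
  by_cases hbi : Irreducible (bin n κ m F d)
  · -- irreducible binomial
    have hH := hirrb F hedge (by rw [lcx, hrp]; exact ha') hb d hd0 (hbin ▸ hbi) _ le_rfl x s hxs
    have hHB : (2 + (1 + (len F * d.natAbs ^ m * (lcx r p F).natAbs ^ (r * p) : ℕ)) : ℝ) ≤
        ((4 * B ^ K : ℕ) : ℝ) := by
      have h1 : 2 + (1 + len F * d.natAbs ^ m * (lcx r p F).natAbs ^ (r * p)) ≤ 4 * B ^ K := by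
        have h2 : len F * d.natAbs ^ m * (lcx r p F).natAbs ^ (r * p) ≤ B ^ K := by
          rw [hrp, hK, pow_add, pow_add, pow_one, pow_mul B]
          apply Nat.mul_le_mul
          · exact Nat.mul_le_mul hlenB (Nat.pow_le_pow_left hdB _)
          · exact Nat.pow_le_pow_left ((natAbs_coeff_le_len F _).trans hlenB) _
        have h3 : 1 ≤ B ^ K := Nat.one_le_pow _ _ hB1
        omega
      exact_mod_cast h1
    have hHpos : (0 : ℝ) ≤ 2 + (1 + (len F * d.natAbs ^ m * (lcx r p F).natAbs ^ (r * p) : ℕ)) := by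
      positivity
    have key : ∀ A : ℕ, 1 ≤ A → |(s : ℝ)| ≤ ((A : ℝ) *
        (2 + (1 + (len F * d.natAbs ^ m * (lcx r p F).natAbs ^ (r * p) : ℕ)))) ^ C2 →
        max x.natAbs y.natAbs ≤ (4 * A * B) ^ E2 := by
      intro A hA hs
      have h1 : (s.natAbs : ℝ) ≤ (((A * (4 * B ^ K)) ^ C2 : ℕ) : ℝ) := by
        rw [Nat.cast_natAbs, Int.cast_abs]
        refine hs.trans ?_
        rw [show (((A * (4 * B ^ K)) ^ C2 : ℕ) : ℝ) = ((A : ℝ) * ((4 * B ^ K : ℕ) : ℝ)) ^ C2 by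
          push_cast; ring]
        apply pow_le_pow_left₀ (by positivity)
        exact mul_le_mul_of_nonneg_left hHB (Nat.cast_nonneg _)
      have h2 : s.natAbs ≤ (A * (4 * B ^ K)) ^ C2 := by exact_mod_cast h1
      have h3 : A * (4 * B ^ K) ≤ (4 * A * B) ^ K := by
        have h4 : 4 * A ≤ (4 * A) ^ K := Nat.le_self_pow (by omega) _
        calc A * (4 * B ^ K) = (4 * A) * B ^ K := by ring
          _ ≤ (4 * A) ^ K * B ^ K := Nat.mul_le_mul_right _ h4
          _ = _ := by rw [← mul_pow]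
      rw [hE2]
      have hBZ : B ≤ 4 * A * B := Nat.le_mul_of_pos_left _ (by omega)
      refine fin_arith n m (K * C2) (4 * A * B) B d.natAbs s.natAbs x.natAbs y.natAbs
        (hB1.trans hBZ) hBZ (hdB.trans (Nat.pow_le_pow_left hBZ _)) ?_ hyd' hxB
      rw [pow_mul]
      exact h2.trans (Nat.pow_le_pow_left h3 _)
    rcases hH with hs | ⟨η, hη, hs⟩
    · left
      have h1 := key 1 le_rfl (by rw [Nat.cast_one, one_mul]; exact hs)
      rw [mul_one] at h1
      exact h1.trans (hmono 4 E2 (by omega) (by omega))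
    · right
      refine ⟨d, hdd, hbi, η, ?_, ?_⟩
      · rw [lcx, hrp] at hη
        rw [← hg, ← hr]
        exact hη
      · rw [← hg, ← hr]
        rcases hs with hs | hs
        · exact Or.inl hs
        · right
          have hc := hc2 ℚ⟮η⟯
          have hceil : 1 ≤ ⌈c2 ℚ⟮η⟯⌉₊ := Nat.one_le_ceil_iff.2 (by linarith)
          have h1 := key ⌈c2 ℚ⟮η⟯⌉₊ hceil (by
            refine hs.trans ?_
            apply pow_le_pow_left₀ (by positivity)
            exact mul_le_mul_of_nonneg_right (Nat.le_ceil _) hHpos)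
          refine h1.trans ?_
          exact Nat.pow_le_pow_right (Nat.mul_pos (by omega) hB1) (by omega)
  · -- reducible binomial
    left
    have haQ : ((lcx r p F : ℤ) : ℚ) ≠ 0 := by
      rw [lcx, hrp]; exact_mod_cast ha'
    have hbQ : ((F.coeff (Finsupp.single 1 m) * d ^ m : ℤ) : ℚ) ≠ 0 := by
      exact_mod_cast mul_ne_zero hb (pow_ne_zero _ hd0)
    have hbd := fun k hk => hcls.bound (k := k) (by omega : 1 ≤ n) hκ hk
    have h1 := hsplit (cover n d F) (totalDegree_cover_le n d F _ (fun k hk => by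
        have h2 := hbd k hk
        exact Nat.add_le_add h2.1 (Nat.mul_le_mul_left _ h2.2.1))) (hirr d hdd hbi) _ _ haQ hbQ
      (Phi_cover_deg hedge hnm d) (Phi_cover_coeff hedge hnm (by omega) hq d) (hbin ▸ hbi) x s
      (by rw [eval_cover]; exact hxs)
    have hlenc : len (cover n d F) ≤ B ^ (1 + (n - 1) * m) := by
      refine (len_cover_le n d hd0 F m (fun k hk => (hbd k hk).2.1)).trans ?_
      rw [pow_add, pow_one, pow_mul]
      exact Nat.mul_le_mul hlenB (Nat.pow_le_pow_left hdB _)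
    have h3 : C1 * len (cover n d F) ≤ (C1 * B) ^ (1 + (n - 1) * m) := by
      calc C1 * len (cover n d F) ≤ C1 * B ^ (1 + (n - 1) * m) := Nat.mul_le_mul_left _ hlenc
        _ ≤ C1 ^ (1 + (n - 1) * m) * B ^ (1 + (n - 1) * m) :=
          Nat.mul_le_mul_right _ (Nat.le_self_pow (by omega) _)
        _ = _ := by rw [← mul_pow]
    have hBZ : B ≤ C1 * B := Nat.le_mul_of_pos_left _ (by omega)
    have h4 := fin_arith n m ((1 + (n - 1) * m) * C1) (C1 * B) B d.natAbs s.natAbs x.natAbs y.natAbs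
      (hB1.trans hBZ) hBZ (hdB.trans (Nat.pow_le_pow_left hBZ _))
      (by rw [pow_mul]; exact h1.2.trans (Nat.pow_le_pow_left h3 _)) hyd' hxB
    rw [← hE1] at h4
    exact h4.trans (hmono C1 E1 (by omega) (by omega))

end Pool.Agent.K1H93.TC
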