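import Pool.Agent.Y910.S.K2
import Pool.Agent.Y660.SG.Edge
import Pool.Agent.K1H93.TC.Cover

set_option autoImplicit false

/-! The monic model of the covering and the bound when the edge polynomial is irreducible. -/

open Polynomial IntermediateField

namespace Pool.Agent.K1H93.TC

open Pool.Agent.H322R2 Pool.Agent.Y910.S

/-- the leading coefficient in `x` -/
noncomputable def lcx (r p : ℕ) (F : MvPolynomial (Fin 2) ℤ) : ℤ := F.coeff (Finsupp.single 0 (r * p))

/-- a coefficient of the monic model -/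
noncomputable def mc (r p : ℕ) (d : ℤ) (F : MvPolynomial (Fin 2) ℤ) (k : Fin 2 →₀ ℕ) : ℤ :=
  F.coeff k * d ^ k 1 * lcx r p F ^ (r * p - 1 - k 0)

open Classical in
/-- the lower part -/
noncomputable def low (n r p : ℕ) (d : ℤ) (F : MvPolynomial (Fin 2) ℤ) : ℤ[X][X] :=
  ∑ k ∈ F.support.erase (Finsupp.single 0 (r * p)),
    monomial (k 0) (monomial (n * k 1) (mc r p d F k))

/-- the monic model `a ^ (N - 1) F(V / a, d U ^ n)` -/
noncomputable def GM (n r p : ℕ) (d : ℤ) (F : MvPolynomial (Fin 2) ℤ) : ℤ[X][X] :=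
  X ^ (r * p) + low n r p d F

section

variable {n p q r m : ℕ} {F : MvPolynomial (Fin 2) ℤ}

lemma edge_lt (hF : Edge n p q r m F) (_hq : 1 ≤ q) (hp : 1 ≤ p) (hr : 1 ≤ r) {k : Fin 2 →₀ ℕ}
    (hk : k ∈ F.support) (hk2 : k ≠ Finsupp.single 0 (r * p)) : k 0 < r * p := by
  rcases hF k hk with h | h | h
  · exact absurd h hk2
  · rw [h]
    simp only [Fin.isValue, ne_eq, not_false_eq_true, Finsupp.single_eq_of_ne,
      zero_ne_one]
    exact Nat.mul_pos hr hp
  · have h1 : q * k 0 < q * (r * p) := by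
      calc q * k 0 ≤ q * k 0 + p * (n * k 1) := Nat.le_add_right _ _
        _ < p * q * r := h
        _ = q * (r * p) := by ring
    exact Nat.lt_of_mul_lt_mul_left h1

lemma edge_le (hF : Edge n p q r m F) (hnm : n * m = q * r) {k : Fin 2 →₀ ℕ}
    (hk : k ∈ F.support) : p * (n * k 1) + q * k 0 ≤ p * q * r := by
  rcases hF k hk with h | h | h
  · rw [h]; simp; apply le_of_eq; ring
  · rw [h]; simp; rw [hnm]; apply le_of_eq; ring
  · rw [add_comm]; exact h.le

/-- scaling preserves irreducibility -/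
lemma irred_scale (A B : ℚ) (c : ℚ) (hc : c ≠ 0) (hA : A ≠ 0) (r N : ℕ) (hN : 1 ≤ N)
    (hcr : c ^ r = A ^ N) (h : Irreducible (C A * X ^ r + C B)) :
    Irreducible (X ^ r + C (B * A ^ (N - 1)) : ℚ[X]) := by
  obtain ⟨inv⟩ : Nonempty (Invertible c) := ⟨invertibleOfNonzero hc⟩
  have h1 : (Polynomial.algEquivCMulXAddC c 0) (X ^ r + C (B * A ^ (N - 1)) : ℚ[X])
      = C (A ^ (N - 1)) * (C A * X ^ r + C B) := by
    rw [algEquivCMulXAddC_apply, map_add, map_pow, aeval_X, aeval_C, map_zero, add_zero, mul_pow,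
      ← C_pow, hcr, mul_add, ← mul_assoc, ← C_mul, ← C_mul, ← pow_succ, Nat.sub_add_cancel hN,
      Polynomial.algebraMap_eq, mul_comm B]
  rw [← MulEquiv.irreducible_iff (Polynomial.algEquivCMulXAddC c 0), h1,
    irreducible_isUnit_mul (isUnit_C.2 (isUnit_iff_ne_zero.2 (pow_ne_zero _ hA)))]
  exact h

lemma low_degree (hF : Edge n p q r m F) (hq : 1 ≤ q) (hp : 1 ≤ p) (hr : 1 ≤ r) (d : ℤ) :
    (low n r p d F).degree < ((r * p : ℕ) : WithBot ℕ) := by
  classical
  rw [low]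
  refine lt_of_le_of_lt (degree_sum_le _ _) ?_
  rw [Finset.sup_lt_iff (WithBot.bot_lt_coe _)]
  intro k hk
  rw [Finset.mem_erase] at hk
  refine lt_of_le_of_lt (degree_monomial_le _ _) ?_
  exact_mod_cast edge_lt hF hq hp hr hk.2 hk.1

lemma GM_monic (hF : Edge n p q r m F) (hq : 1 ≤ q) (hp : 1 ≤ p) (hr : 1 ≤ r) (d : ℤ) :
    (GM n r p d F).Monic ∧ (GM n r p d F).natDegree = r * p := by
  have h := low_degree hF hq hp hr d
  refine ⟨monic_X_pow_add h, ?_⟩
  rw [GM]
  apply natDegree_eq_of_degree_eq_some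
  rw [degree_add_eq_left_of_degree_lt, degree_X_pow]
  rwa [degree_X_pow]

lemma low_coeff (i j : ℕ) (d : ℤ) : ((low n r p d F).coeff j).coeff i =
    ∑ k ∈ F.support.erase (Finsupp.single 0 (r * p)),
      if k 0 = j ∧ n * k 1 = i then mc r p d F k else 0 := by
  classical
  rw [low, finsetSum_coeff, finsetSum_coeff]
  apply Finset.sum_congr (by congr)
  intro k _
  rw [coeff_monomial]
  by_cases h : k 0 = j
  · rw [if_pos h, coeff_monomial]
    by_cases h2 : n * k 1 = i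
    · rw [if_pos h2, if_pos ⟨h, h2⟩]
    · rw [if_neg h2, if_neg (fun h3 => h2 h3.2)]
  · rw [if_neg h, coeff_zero, if_neg (fun h3 => h h3.1)]

lemma GM_coeff (i j : ℕ) (d : ℤ) : ((GM n r p d F).coeff j).coeff i =
    (if j = r * p ∧ i = 0 then 1 else 0) + ((low n r p d F).coeff j).coeff i := by
  rw [GM, coeff_add, coeff_add, coeff_X_pow]
  congr 1
  by_cases h : j = r * p
  · rw [if_pos h, coeff_one]
    by_cases h2 : i = 0
    · rw [if_pos h2, if_pos ⟨h, h2⟩]
    · rw [if_neg h2, if_neg (fun h3 => h2 h3.2)]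
  · rw [if_neg h, coeff_zero, if_neg (fun h3 => h h3.1)]

lemma GM_WN (hF : Edge n p q r m F) (hnm : n * m = q * r) (hq : 1 ≤ q) (hp : 1 ≤ p) (hr : 1 ≤ r)
    (d : ℤ) : WN r p q (GM n r p d F) := by
  classical
  obtain ⟨h1, h2⟩ := GM_monic hF hq hp hr d
  refine ⟨h1, h2, ?_⟩
  intro i j hij
  rw [GM_coeff, low_coeff] at hij
  by_cases h3 : j = r * p ∧ i = 0
  · rw [h3.1, h3.2]; apply le_of_eq; ring
  · rw [if_neg h3, zero_add] at hij
    obtain ⟨k, hk, hk2⟩ := Finset.exists_ne_zero_of_sum_ne_zero hij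
    by_cases h4 : k 0 = j ∧ n * k 1 = i
    · rw [← h4.1, ← h4.2]
      exact edge_le hF hnm (Finset.mem_of_mem_erase hk)
    · rw [if_neg h4] at hk2
      exact absurd rfl hk2

lemma GM_wl (hF : Edge n p q r m F) (hnm : n * m = q * r) (hq : 1 ≤ q) (hp : 1 ≤ p) (hr : 1 ≤ r)
    (d : ℤ) : wl r p q (GM n r p d F) =
      X ^ r + C (F.coeff (Finsupp.single 1 m) * d ^ m * lcx r p F ^ (r * p - 1)) := by
  classical
  have hn : 1 ≤ n := by
    rcases Nat.eq_zero_or_pos n with h | h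
    · rw [h, zero_mul] at hnm
      have : 0 < q * r := Nat.mul_pos hq hr
      omega
    · exact h
  have hm : 1 ≤ m := by
    rcases Nat.eq_zero_or_pos m with h | h
    · rw [h, mul_zero] at hnm
      have : 0 < q * r := Nat.mul_pos hq hr
      omega
    · exact h
  have hne : (Finsupp.single 0 (r * p) : Fin 2 →₀ ℕ) ≠ Finsupp.single 1 m := by
    intro h
    have := DFunLike.congr_fun h 1
    simp at this
    omega
  obtain ⟨hw1, hw2⟩ := wl_monic (GM_WN hF hnm hq hp hr d)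
  ext l
  rcases lt_or_ge r l with hl | hl
  · rw [coeff_eq_zero_of_natDegree_lt (by omega), coeff_add, coeff_X_pow, if_neg (by omega), coeff_C,
      if_neg (by omega), add_zero]
  rcases Nat.eq_or_lt_of_le hl with rfl | hl2
  · rw [coeff_add, coeff_X_pow, if_pos rfl, coeff_C, if_neg (by omega), add_zero]
    have := hw1
    rw [Monic, leadingCoeff, hw2] at this
    exact this
  rw [wl_coeff l hl, GM_coeff, low_coeff, if_neg, zero_add, coeff_add, coeff_X_pow,
    if_neg (by omega), zero_add, coeff_C]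
  swap
  · rintro ⟨h1, _⟩
    rw [mul_comm r p] at h1
    have := Nat.eq_of_mul_eq_mul_left (by omega : 0 < p) h1
    omega
  by_cases hl0 : l = 0
  · subst hl0
    rw [if_pos rfl]
    rw [Finset.sum_eq_single (Finsupp.single 1 m)]
    · rw [if_pos ⟨by simp, by simp [hnm]⟩, mc]
      simp
    · intro k hk hk2
      rw [Finset.mem_erase] at hk
      rw [if_neg]
      rintro ⟨h1, h2⟩
      rw [mul_zero] at h1
      apply hk2
      rw [Nat.sub_zero, ← hnm] at h2
      have h3 := Nat.eq_of_mul_eq_mul_left (by omega : 0 < n) h2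
      ext i
      fin_cases i
      · simpa using h1
      · simpa using h3
    · intro h
      rw [Finset.mem_erase, not_and] at h
      have h1 := MvPolynomial.notMem_support_iff.1 (h hne.symm)
      rw [mc, h1]
      simp
  · rw [if_neg hl0]
    apply Finset.sum_eq_zero
    intro k hk
    rw [Finset.mem_erase] at hk
    rw [if_neg]
    rintro ⟨h1, h2⟩
    rcases hF k hk.2 with h | h | h
    · exact hk.1 h
    · rw [h] at h1
      simp at h1
      omega
    · rw [h1, h2] at h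
      have : q * (p * l) + p * (q * (r - l)) = p * q * r := by
        obtain ⟨t, ht⟩ : ∃ t, r = l + t := ⟨r - l, by omega⟩
        rw [ht, Nat.add_sub_cancel_left]; ring
      omega

lemma ev_GM (hF : Edge n p q r m F) (ha : lcx r p F ≠ 0) (hq : 1 ≤ q) (hp : 1 ≤ p) (hr : 1 ≤ r)
    (d x s : ℤ) :
    ev s (lcx r p F * x) (GM n r p d F) =
      lcx r p F ^ (r * p - 1) * MvPolynomial.eval ![x, d * s ^ n] F := by
  classical
  have hN : 1 ≤ r * p := Nat.mul_pos hr hp
  have hmem : Finsupp.single 0 (r * p) ∈ F.support := MvPolynomial.mem_support_iff.2 ha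
  · rw [GM, low, map_add, map_pow, ev_X, map_sum, MvPolynomial.eval_eq',
      ← Finset.add_sum_erase _ _ hmem, mul_add, Finset.mul_sum]
    congr 1
    · rw [Fin.prod_univ_two]
      simp only [Matrix.cons_val_zero, Matrix.cons_val_one]
      have h1 : (Finsupp.single 0 (r * p) : Fin 2 →₀ ℕ) 1 = 0 := by simp
      have h2 : (Finsupp.single 0 (r * p) : Fin 2 →₀ ℕ) 0 = r * p := by simp
      rw [h1, h2, pow_zero, mul_one, mul_pow]
      have h3 : lcx r p F ^ (r * p) = lcx r p F ^ (r * p - 1) * lcx r p F := by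
        rw [← pow_succ]; congr 1; omega
      rw [h3, mul_assoc]
      rfl
    · apply Finset.sum_congr rfl
      intro k hk
      rw [Finset.mem_erase] at hk
      have hlt := edge_lt hF hq hp hr hk.2 hk.1
      rw [ev_apply, eval₂_monomial, evf, coe_eval₂RingHom, eval₂_monomial, Fin.prod_univ_two, mc]
      simp only [Matrix.cons_val_zero, Matrix.cons_val_one]
      have h3 : lcx r p F ^ (r * p - 1) = lcx r p F ^ (r * p - 1 - k 0) * lcx r p F ^ k 0 := by
        rw [← pow_add]; congr 1; omega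
      rw [h3, mul_pow, mul_pow, ← pow_mul]
      simp only [eq_intCast, Int.cast_id]
      ring

lemma pn_GM_le (hF : Edge n p q r m F) (ha : lcx r p F ≠ 0) (hnm : n * m = q * r) (hn : 1 ≤ n)
    (hp : 1 ≤ p) {d : ℤ} (hd : d ≠ 0) :
    pn (pn zn) (GM n r p d F) ≤
      1 + (len F * d.natAbs ^ m * (lcx r p F).natAbs ^ (r * p) : ℕ) := by
  classical
  have h1 : pn (pn zn) (X ^ (r * p) : ℤ[X][X]) = 1 := by
    rw [← monomial_one_right_eq_X_pow, pn_monomial, pn_one]
    simp
  rw [GM]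
  refine (map_add_le_add (pn (pn zn)) _ _).trans ?_
  rw [h1]
  apply add_le_add le_rfl
  rw [low]
  refine (seminorm_sum_le _ _ _).trans ?_
  have hd1 : 1 ≤ d.natAbs := Int.natAbs_pos.2 hd
  have ha1 : 1 ≤ (lcx r p F).natAbs := Int.natAbs_pos.2 ha
  have h2 : ∀ k ∈ F.support.erase (Finsupp.single 0 (r * p)),
      pn (pn zn) (monomial (k 0) (monomial (n * k 1) (mc r p d F k))) ≤
        (((F.coeff k).natAbs * (d.natAbs ^ m * (lcx r p F).natAbs ^ (r * p)) : ℕ) : ℝ) := by
    intro k hk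
    rw [Finset.mem_erase] at hk
    have hk1 : k 1 ≤ m := by
      have h3 := edge_le hF hnm hk.2
      have h4 : p * n * k 1 ≤ p * n * m := by
        calc p * n * k 1 ≤ p * (n * k 1) + q * k 0 := by rw [mul_assoc]; exact Nat.le_add_right _ _
          _ ≤ p * q * r := h3
          _ = p * (q * r) := by ring
          _ = p * n * m := by rw [← hnm]; ring
      exact Nat.le_of_mul_le_mul_left h4 (Nat.mul_pos hp hn)
    have h6 : |((mc r p d F k : ℤ) : ℝ)| = (((mc r p d F k).natAbs : ℕ) : ℝ) := by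
      rw [Nat.cast_natAbs, Int.cast_abs]
    rw [pn_monomial, pn_monomial, zn_apply, h6]
    have h5 : (mc r p d F k).natAbs ≤
        (F.coeff k).natAbs * (d.natAbs ^ m * (lcx r p F).natAbs ^ (r * p)) := by
      rw [mc, Int.natAbs_mul, Int.natAbs_mul, Int.natAbs_pow, Int.natAbs_pow, mul_assoc]
      apply Nat.mul_le_mul_left
      exact Nat.mul_le_mul (Nat.pow_le_pow_right hd1 hk1)
        (Nat.pow_le_pow_right ha1 ((Nat.sub_le _ _).trans (Nat.sub_le _ _)))
    exact_mod_cast h5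
  refine (Finset.sum_le_sum h2).trans ?_
  rw [← Nat.cast_sum, Nat.cast_le, ← Finset.sum_mul, mul_assoc]
  apply Nat.mul_le_mul_right
  exact Finset.sum_le_sum_of_subset (Finset.erase_subset _ _)

end

theorem irr_bound (n p q r m : ℕ) (hnm : n * m = q * r) (hn : 1 ≤ n) (hp : 1 ≤ p) (hq : 1 ≤ q)
    (hr : 1 ≤ r) (hpq : Nat.Coprime p q) :
    ∃ (C0 : ℕ) (c : IntermediateField ℚ ℝ → ℝ), (∀ L, 1 ≤ c L) ∧
      ∀ F : MvPolynomial (Fin 2) ℤ, Edge n p q r m F → lcx r p F ≠ 0 →
      F.coeff (Finsupp.single 1 m) ≠ 0 → ∀ d : ℤ, d ≠ 0 →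
      Irreducible (C ((lcx r p F : ℤ) : ℚ) * X ^ r +
        C ((F.coeff (Finsupp.single 1 m) * d ^ m : ℤ) : ℚ)) →
      ∀ H : ℝ, 1 + (len F * d.natAbs ^ m * (lcx r p F).natAbs ^ (r * p) : ℕ) ≤ H →
      ∀ x s : ℤ, MvPolynomial.eval ![x, d * s ^ n] F = 0 →
      |(s : ℝ)| ≤ (2 + H) ^ C0 ∨ ∃ η : ℝ,
        ((lcx r p F : ℤ) : ℝ) * η ^ r +
          ((F.coeff (Finsupp.single 1 m) : ℤ) : ℝ) * (d : ℝ) ^ m = 0 ∧
        (r ≤ 2 ∨ |(s : ℝ)| ≤ (c ℚ⟮η⟯ * (2 + H)) ^ C0) := by
  obtain ⟨C0, c, hc1, hc⟩ := one_const' r p q hr hp hq hpq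
  refine ⟨C0, c, hc1, ?_⟩
  intro F hF ha hb d hd hirr H hH x s hxs
  have hN : 1 ≤ r * p := Nat.mul_pos hr hp
  have hWN := GM_WN hF hnm hq hp hr d
  have hwl := GM_wl hF hnm hq hp hr d
  obtain ⟨hgm, hgd⟩ := wl_monic hWN
  have haQ : ((lcx r p F : ℤ) : ℚ) ≠ 0 := by exact_mod_cast ha
  have hirr2 : Irreducible ((wl r p q (GM n r p d F)).map (Int.castRingHom ℚ)) := by
    have h1 := irred_scale _ _ (((lcx r p F : ℤ) : ℚ) ^ p) (pow_ne_zero _ haQ) haQ r (r * p) hN
      (by rw [← pow_mul, mul_comm]) hirr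
    rw [hwl, Polynomial.map_add, Polynomial.map_pow, map_X, map_C]
    convert h1 using 3
    rw [eq_intCast]
    push_cast
    ring
  have hg0 : (wl r p q (GM n r p d F)).coeff 0 ≠ 0 := by
    rw [hwl, coeff_add, coeff_X_pow, if_neg (by omega), coeff_C, if_pos rfl, zero_add]
    exact mul_ne_zero (mul_ne_zero hb (pow_ne_zero _ hd)) (pow_ne_zero _ ha)
  have hprime : Prime (GM n r p d F) := Y660.SG.edge_prime r p q hr hp hq hpq _ hWN.1 hWN.2.1
    hWN.2.2 _ hgm hgd (fun l hl => wl_coeff l hl) hg0 hirr2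
  have hpn := (pn_GM_le hF ha hnm hn hp hd).trans hH
  have hH1 : 1 ≤ H := by
    refine le_trans ?_ hH
    have : (0 : ℝ) ≤ (len F * d.natAbs ^ m * (lcx r p F).natAbs ^ (r * p) : ℕ) := Nat.cast_nonneg _
    linarith
  have hev : ev s (lcx r p F * x) (GM n r p d F) = 0 := by
    rw [ev_GM hF ha hq hp hr, hxs, mul_zero]
  rcases hc _ hWN hprime hirr2 hg0 H hH1 hpn s (lcx r p F * x) hev with h | ⟨η, h1, h2⟩
  · exact Or.inl h
  · right
    have haR : ((lcx r p F : ℤ) : ℝ) ≠ 0 := by exact_mod_cast ha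
    refine ⟨η / ((lcx r p F : ℤ) : ℝ) ^ p, ?_, ?_⟩
    · rw [hwl, map_add, map_pow, evf_X, evf_C] at h1
      have h3 : η ^ r = -((F.coeff (Finsupp.single 1 m) * d ^ m * lcx r p F ^ (r * p - 1) : ℤ) : ℝ) := by
        linarith
      have h4 : ((lcx r p F : ℤ) : ℝ) ^ (p * r) = (lcx r p F : ℝ) ^ (r * p - 1) * lcx r p F := by
        rw [← pow_succ, mul_comm p r]; congr 1; omega
      rw [div_pow, ← pow_mul, h3, h4]
      push_cast
      have h5 : ((lcx r p F : ℤ) : ℝ) ^ (r * p - 1) ≠ 0 := pow_ne_zero _ haR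
      field_simp
      ring
    · rcases h2 with h2 | h2
      · exact Or.inl h2
      · right
        have hfield : ℚ⟮η / ((lcx r p F : ℤ) : ℝ) ^ p⟯ = ℚ⟮η⟯ := by
          apply le_antisymm
          · rw [adjoin_simple_le_iff]
            exact div_mem (mem_adjoin_simple_self ℚ η) (pow_mem (intCast_mem _ _) _)
          · rw [adjoin_simple_le_iff]
            have h6 : η = η / ((lcx r p F : ℤ) : ℝ) ^ p * ((lcx r p F : ℤ) : ℝ) ^ p := by
              have : ((lcx r p F : ℤ) : ℝ) ^ p ≠ 0 := pow_ne_zero _ haR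
              field_simp
            have h7 : η / ((lcx r p F : ℤ) : ℝ) ^ p * ((lcx r p F : ℤ) : ℝ) ^ p ∈
                ℚ⟮η / ((lcx r p F : ℤ) : ℝ) ^ p⟯ :=
              mul_mem (mem_adjoin_simple_self ℚ _) (pow_mem (intCast_mem _ _) _)
            rwa [← h6] at h7
        rw [hfield]
        exact h2

end Pool.Agent.K1H93.TC
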