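import Pool.Agent.K1H93.TC.Cover

set_option autoImplicit false

/-! The covering is irreducible for prime `n` and `κ = 1`, unless the curve is parametrised. -/

open Polynomial

namespace Pool.Agent.K1H93.TC

/-- `ℚ[x₀, x₁] → ℚ[x₁][x₀]` -/
noncomputable def toPP : MvPolynomial (Fin 2) ℚ →+* ℚ[X][X] :=
  (MvPolynomial.aeval (![X, C X] : Fin 2 → ℚ[X][X]) : MvPolynomial (Fin 2) ℚ →ₐ[ℚ] ℚ[X][X])

/-- `ℚ[x₁][x₀] → ℚ[x₀, x₁]` -/
noncomputable def ofPP : ℚ[X][X] →+* MvPolynomial (Fin 2) ℚ :=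
  eval₂RingHom (aeval (MvPolynomial.X 1 : MvPolynomial (Fin 2) ℚ) :
    ℚ[X] →ₐ[ℚ] MvPolynomial (Fin 2) ℚ).toRingHom (MvPolynomial.X 0)

lemma toPP_C (c : ℚ) : toPP (MvPolynomial.C c) = C (C c) := by
  change MvPolynomial.aeval _ _ = _
  rw [MvPolynomial.algHom_C]; rfl

lemma toPP_X0 : toPP (MvPolynomial.X 0) = X := by
  change MvPolynomial.aeval _ _ = _
  rw [MvPolynomial.aeval_X]; rfl

lemma toPP_X1 : toPP (MvPolynomial.X 1) = C X := by
  change MvPolynomial.aeval _ _ = _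
  rw [MvPolynomial.aeval_X]; rfl

lemma ofPP_C (g : ℚ[X]) : ofPP (C g) = aeval (MvPolynomial.X 1) g := by
  rw [ofPP, coe_eval₂RingHom, eval₂_C]; rfl

lemma ofPP_X : ofPP X = MvPolynomial.X 0 := by
  rw [ofPP, coe_eval₂RingHom, eval₂_X]

/-- the isomorphism -/
noncomputable def isoPP : MvPolynomial (Fin 2) ℚ ≃+* ℚ[X][X] :=
  RingEquiv.ofRingHom toPP ofPP
    (by
      apply Polynomial.ringHom_ext'
      · apply Polynomial.ringHom_ext'
        · exact Subsingleton.elim _ _
        · change toPP (ofPP (C X)) = C X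
          rw [ofPP_C, aeval_X, toPP_X1]
      · change toPP (ofPP X) = X
        rw [ofPP_X, toPP_X0])
    (by
      apply MvPolynomial.ringHom_ext
      · intro c
        change ofPP (toPP (MvPolynomial.C c)) = MvPolynomial.C c
        rw [toPP_C, ofPP_C, aeval_C, MvPolynomial.algebraMap_eq]
      · intro i
        fin_cases i
        · change ofPP (toPP (MvPolynomial.X 0)) = MvPolynomial.X 0
          rw [toPP_X0, ofPP_X]
        · change ofPP (toPP (MvPolynomial.X 1)) = MvPolynomial.X 1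
          rw [toPP_X1, ofPP_C, aeval_X])

/-- `x = T Z ^ m`, `s = Z` -/
noncomputable def The (m : ℕ) : ℚ[X][X] →+* ℚ[X][X] :=
  eval₂RingHom (mapRingHom C) (C X * X ^ m)

lemma The_C (m : ℕ) (g : ℚ[X]) : The m (C g) = g.map C := by
  rw [The, coe_eval₂RingHom, eval₂_C]; rfl

lemma The_X (m : ℕ) : The m X = C X * X ^ m := by
  rw [The, coe_eval₂RingHom, eval₂_X]

lemma The_toPP (m : ℕ) (P : MvPolynomial (Fin 2) ℚ) : The m (toPP P) = Phi 1 m P := by
  have : (The m).comp toPP = (Phi 1 m).toRingHom := by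
    apply MvPolynomial.ringHom_ext
    · intro c
      change The m (toPP (MvPolynomial.C c)) = Phi 1 m (MvPolynomial.C c)
      rw [toPP_C, The_C, Phi_C, map_C]
    · intro i
      fin_cases i
      · change The m (toPP (MvPolynomial.X 0)) = Phi 1 m (MvPolynomial.X 0)
        rw [toPP_X0, The_X, Phi_X0]
      · change The m (toPP (MvPolynomial.X 1)) = Phi 1 m (MvPolynomial.X 1)
        rw [toPP_X1, The_C, Phi_X1, map_X, pow_one]
  exact congrArg (fun φ : MvPolynomial (Fin 2) ℚ →+* ℚ[X][X] => φ P) this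

/-- the coefficients of `The m f` -/
lemma The_eq (m : ℕ) (f : ℚ[X][X]) :
    The m f = ∑ i ∈ Finset.range (f.natDegree + 1), (f.coeff i).map C * (C (X ^ i) * X ^ (m * i)) := by
  rw [The, coe_eval₂RingHom, eval₂_eq_sum_range]
  apply Finset.sum_congr rfl
  intro i _
  rw [mul_pow, ← C_pow, ← pow_mul]
  rfl

lemma The_coeff (m : ℕ) (f : ℚ[X][X]) (j l : ℕ) :
    ((The m f).coeff l).coeff j = if m * j ≤ l then (f.coeff j).coeff (l - m * j) else 0 := by
  rw [The_eq, finsetSum_coeff, finsetSum_coeff]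
  have h1 : ∀ i, (((f.coeff i).map (C : ℚ →+* ℚ[X]) * (C (X ^ i) * X ^ (m * i))).coeff l).coeff j =
      if m * i ≤ l then (if j = i then (f.coeff i).coeff (l - m * i) else 0) else 0 := by
    intro i
    rw [← mul_assoc, coeff_mul_X_pow']
    by_cases h : m * i ≤ l
    · rw [if_pos h, if_pos h, coeff_mul_C, coeff_map, coeff_C_mul, coeff_X_pow]
      by_cases h2 : j = i
      · rw [if_pos h2, if_pos h2, mul_one]
      · rw [if_neg h2, if_neg h2, mul_zero]
    · rw [if_neg h, if_neg h, coeff_zero]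
  rw [Finset.sum_congr rfl (fun i _ => h1 i)]
  by_cases hj : j ∈ Finset.range (f.natDegree + 1)
  · rw [Finset.sum_eq_single_of_mem j hj]
    · rw [if_pos rfl]
    · intro i _ hij
      rw [if_neg (Ne.symm hij)]
      simp
  · rw [Finset.sum_eq_zero]
    · rw [Finset.mem_range, not_lt] at hj
      rw [coeff_eq_zero_of_natDegree_lt (show f.natDegree < j by omega)]
      simp
    · intro i hi
      rw [if_neg (fun h : j = i => hj (h ▸ hi))]
      simp

/-- the edge form of a monic polynomial of maximal degree is monic -/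
lemma lead_monic (m : ℕ) (f : ℚ[X][X]) (hf : f.Monic) :
    ((The m f).coeff (m * f.natDegree)).Monic ∧
      ((The m f).coeff (m * f.natDegree)).natDegree = f.natDegree := by
  have h1 : ((The m f).coeff (m * f.natDegree)).coeff f.natDegree = 1 := by
    rw [The_coeff, if_pos le_rfl, Nat.sub_self, hf.coeff_natDegree, coeff_one_zero]
  have h2 : ((The m f).coeff (m * f.natDegree)).natDegree ≤ f.natDegree := by
    rw [natDegree_le_iff_coeff_eq_zero]
    intro j hj
    rw [The_coeff, coeff_eq_zero_of_natDegree_lt hj]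
    simp
  exact ⟨monic_of_natDegree_le_of_coeff_eq_one _ h2 h1,
    le_antisymm h2 (le_natDegree_of_ne_zero (by rw [h1]; exact one_ne_zero))⟩

/-- factorisation of the edge form -/
lemma lead_mul (m D : ℕ) (f g : ℚ[X][X]) (hf : f.Monic) (hg : g.Monic)
    (hD : D = m * (f.natDegree + g.natDegree)) (hfg : (The m (f * g)).natDegree ≤ D) :
    (The m f).coeff (m * f.natDegree) * (The m g).coeff (m * g.natDegree) =
      (The m (f * g)).coeff D := by
  obtain ⟨hf1, hf2⟩ := lead_monic m f hf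
  obtain ⟨hg1, hg2⟩ := lead_monic m g hg
  have hf3 : m * f.natDegree ≤ (The m f).natDegree := le_natDegree_of_ne_zero hf1.ne_zero
  have hg3 : m * g.natDegree ≤ (The m g).natDegree := le_natDegree_of_ne_zero hg1.ne_zero
  have hf0 : The m f ≠ 0 := by
    intro h0; rw [h0, coeff_zero] at hf1; exact hf1.ne_zero rfl
  have hg0 : The m g ≠ 0 := by
    intro h0; rw [h0, coeff_zero] at hg1; exact hg1.ne_zero rfl
  rw [map_mul] at hfg ⊢
  rw [natDegree_mul hf0 hg0] at hfg
  have hD2 : D = m * f.natDegree + m * g.natDegree := by rw [hD]; ring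
  rw [hD2]
  exact (coeff_mul_add_eq_of_natDegree_le (by omega) (by omega)).symm

/-- `T ^ n - ρ ^ n` has no factors except of degree `0, 1, n - 1, n` -/
lemma deg_factor {n : ℕ} (hn : n.Prime) (c : ℚ) (hc : c ≠ 0) (hred : ¬ Irreducible (X ^ n - C c))
    (φ ψ : ℚ[X]) (hφψ : φ * ψ = X ^ n - C c) (hφ : 1 ≤ φ.natDegree) (hψ : 1 ≤ ψ.natDegree) :
    φ.natDegree = 1 ∨ ψ.natDegree = 1 := by
  obtain ⟨ρ, hρ⟩ : ∃ ρ : ℚ, ρ ^ n = c := by
    by_contra hcon
    push Not at hcon
    exact hred (X_pow_sub_C_irreducible_of_prime hn hcon)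
  have hρ0 : ρ ≠ 0 := by
    rintro rfl
    rw [zero_pow hn.ne_zero] at hρ
    exact hc hρ.symm
  obtain ⟨inv⟩ : Nonempty (Invertible ρ) := ⟨invertibleOfNonzero hρ0⟩
  obtain ⟨M, hM⟩ : ∃ M : ℚ[X], M = ∑ i ∈ Finset.range n, X ^ i * C ρ ^ (n - 1 - i) := ⟨_, rfl⟩
  have hfac : (X - C ρ) * M = X ^ n - C c := by
    rw [hM, mul_comm, ← hρ, C_pow]
    exact (Commute.all X (C ρ)).geom_sum₂_mul n
  have hMirr : Irreducible M := by
    have : Fact n.Prime := ⟨hn⟩
    have h1 : (algEquivCMulXAddC ρ 0) M = C (ρ ^ (n - 1)) * cyclotomic n ℚ := by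
      rw [cyclotomic_prime, hM, map_sum, Finset.mul_sum]
      apply Finset.sum_congr rfl
      intro i hi
      rw [Finset.mem_range] at hi
      rw [algEquivCMulXAddC_apply, map_mul, map_pow, map_pow, aeval_X, aeval_C, map_zero, add_zero,
        mul_pow, Polynomial.algebraMap_eq]
      have h2 : C (ρ ^ (n - 1)) = C ρ ^ i * C ρ ^ (n - 1 - i) := by
        rw [← pow_add, ← C_pow]; congr 2; omega
      rw [h2]; ring
    rw [← MulEquiv.irreducible_iff (algEquivCMulXAddC ρ 0), h1,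
      irreducible_isUnit_mul (isUnit_C.2 (isUnit_iff_ne_zero.2 (pow_ne_zero _ hρ0)))]
    exact cyclotomic.irreducible_rat hn.pos
  have hlin : Prime (X - C ρ) := prime_X_sub_C ρ
  have hdeg1 : (X - C ρ).natDegree = 1 := natDegree_X_sub_C ρ
  have key : ∀ φ ψ : ℚ[X], φ * ψ = X ^ n - C c → 1 ≤ ψ.natDegree → (X - C ρ) ∣ φ →
      φ.natDegree = 1 := by
    intro φ ψ h1 h2 h3
    obtain ⟨φ', rfl⟩ := h3
    have h4 : φ' * ψ = M := by
      have h5 : (X - C ρ) * (φ' * ψ) = (X - C ρ) * M := by rw [hfac, ← h1, mul_assoc]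
      exact mul_left_cancel₀ (X_sub_C_ne_zero ρ) h5
    rcases hMirr.isUnit_or_isUnit h4.symm with h6 | h6
    · rw [natDegree_mul (X_sub_C_ne_zero ρ) h6.ne_zero, hdeg1, natDegree_eq_zero_of_isUnit h6]
    · rw [natDegree_eq_zero_of_isUnit h6] at h2
      omega
  have h1 : (X - C ρ) ∣ φ * ψ := by rw [hφψ, ← hfac]; exact dvd_mul_right _ _
  rcases hlin.dvd_or_dvd h1 with h2 | h2
  · exact Or.inl (key φ ψ hφψ hψ h2)
  · exact Or.inr (key ψ φ (by rw [mul_comm]; exact hφψ) hφ h2)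

end Pool.Agent.K1H93.TC
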