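import Pool.Agent.K1H93.TC.Prime
import Pool.Agent.K1H93.TC.Gen

set_option autoImplicit false

/-! Irreducibility of the covering for prime `n` and `κ = 1`. -/

open Polynomial IntermediateField

namespace Pool.Agent.K1H93.TC

open Pool.Agent.H322R2

lemma eval_toPP_cover (n : ℕ) (d : ℤ) (F : MvPolynomial (Fin 2) ℤ) (q : ℚ[X]) :
    (toPP (MvPolynomial.map (Int.castRingHom ℚ) (cover n d F))).eval q =
      MvPolynomial.aeval ![q, C (d : ℚ) * X ^ n] F := by
  obtain ⟨φ, hφ⟩ : ∃ φ : MvPolynomial (Fin 2) ℤ →+* ℚ[X], ∀ G, φ G =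
      (toPP (MvPolynomial.map (Int.castRingHom ℚ) (cover n d G))).eval q :=
    ⟨(evalRingHom q).comp (toPP.comp ((MvPolynomial.map (Int.castRingHom ℚ)).comp
      (MvPolynomial.aeval ![MvPolynomial.X 0, MvPolynomial.C d * MvPolynomial.X 1 ^ n] :
        MvPolynomial (Fin 2) ℤ →ₐ[ℤ] MvPolynomial (Fin 2) ℤ).toRingHom)), fun G => rfl⟩
  rw [← hφ]
  have : φ = (MvPolynomial.aeval ![q, C (d : ℚ) * X ^ n] :
      MvPolynomial (Fin 2) ℤ →ₐ[ℤ] ℚ[X]).toRingHom := by
    apply MvPolynomial.ringHom_ext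
    · intro c
      have h1 : (MvPolynomial.C c : MvPolynomial (Fin 2) ℤ) = ((c : ℤ) : MvPolynomial (Fin 2) ℤ) := by
        simp
      rw [h1, map_intCast, map_intCast]
    · intro i
      rw [hφ]
      change _ = MvPolynomial.aeval ![q, C (d : ℚ) * X ^ n] (MvPolynomial.X i)
      fin_cases i
      · simp [cover, toPP_X0]
      · simp [cover, toPP_X1]
  rw [this]
  rfl

lemma toPP_cover (n : ℕ) (d : ℤ) (F : MvPolynomial (Fin 2) ℤ) :
    toPP (MvPolynomial.map (Int.castRingHom ℚ) (cover n d F)) =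
      ∑ k ∈ F.support, C (C ((F.coeff k * d ^ k 1 : ℤ) : ℚ) * X ^ (n * k 1)) * X ^ k 0 := by
  rw [cover_eq, map_sum, map_sum]
  apply Finset.sum_congr rfl
  intro k _
  rw [MvPolynomial.map_monomial, MvPolynomial.monomial_eq,
    Finsupp.prod_add_index' (by simp) (by intro a b c; exact pow_add _ _ _),
    Finsupp.prod_single_index (by simp), Finsupp.prod_single_index (by simp), map_mul toPP,
    map_mul toPP, map_pow toPP, map_pow toPP, toPP_C, toPP_X0, toPP_X1, eq_intCast, C_mul, C_pow]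
  ring

theorem cover_irreducible (n m : ℕ) (hn : n.Prime) (hm : 1 ≤ m) (F : MvPolynomial (Fin 2) ℤ)
    (hF : Cls n 1 m F) (ha : F.coeff (Finsupp.single 0 (n * 1)) ≠ 0)
    (hb : F.coeff (Finsupp.single 1 m) ≠ 0) (d : ℤ) (hd : d ≠ 0)
    (hred : ¬ Irreducible (bin n 1 m F d))
    (hq : ∀ q : ℚ[X], MvPolynomial.aeval ![q, C (d : ℚ) * X ^ n] F ≠ 0) :
    Irreducible (MvPolynomial.map (Int.castRingHom ℚ) (cover n d F)) := by
  have hn1 : 1 ≤ n := hn.one_le
  have hedge : Edge n 1 m n m F := by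
    have h1 := hF.edge (g := 1) (p := 1) (q := m) (by norm_num) (by ring)
    rwa [mul_one] at h1
  have hnm : n * m = m * n := mul_comm _ _
  obtain ⟨P, hP⟩ : ∃ P, P = MvPolynomial.map (Int.castRingHom ℚ) (cover n d F) := ⟨_, rfl⟩
  have haQ : ((F.coeff (Finsupp.single 0 (n * 1)) : ℤ) : ℚ) ≠ 0 := by exact_mod_cast ha
  obtain ⟨a, ha'⟩ : ∃ a : ℚ, a = ((F.coeff (Finsupp.single 0 (n * 1)) : ℤ) : ℚ) := ⟨_, rfl⟩
  obtain ⟨b, hb'⟩ : ∃ b : ℚ, b = ((F.coeff (Finsupp.single 1 m) * d ^ m : ℤ) : ℚ) := ⟨_, rfl⟩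
  have ha0 : a ≠ 0 := by rw [ha']; exact haQ
  have hb0 : b ≠ 0 := by
    rw [hb']; exact_mod_cast mul_ne_zero hb (pow_ne_zero _ hd)
  have hbin : bin n 1 m F d = C a * X ^ n + C b := by
    rw [bin, Nat.gcd_one_left, mul_one n, ha', hb', mul_one n]
  have hPhi1 : (The m (toPP P)).natDegree ≤ m * n := by
    rw [The_toPP, hP]
    have := Phi_cover_deg hedge hnm d
    rwa [one_mul] at this
  have hPhi2 : (The m (toPP P)).coeff (m * n) = C a * X ^ n + C b := by
    rw [The_toPP, hP]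
    have := Phi_cover_coeff hedge hnm hn1 hm d
    rw [one_mul, expand_one, mul_one n] at this
    rw [this, ha', hb', mul_one n]
  -- the leading coefficient in `x`
  have hcoef : ∀ j, (toPP P).coeff j = ∑ k ∈ F.support,
      if j = k 0 then C ((F.coeff k * d ^ k 1 : ℤ) : ℚ) * X ^ (n * k 1) else 0 := by
    intro j
    rw [hP, toPP_cover, finsetSum_coeff]
    apply Finset.sum_congr rfl
    intro k _
    rw [coeff_C_mul, coeff_X_pow]
    by_cases h : j = k 0
    · rw [if_pos h, if_pos h, mul_one]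
    · rw [if_neg h, if_neg h, mul_zero]
  have hmem : Finsupp.single 0 (n * 1) ∈ F.support := MvPolynomial.mem_support_iff.2 ha
  have hdeg : (toPP P).natDegree ≤ n := by
    rw [natDegree_le_iff_coeff_eq_zero]
    intro j hj
    rw [hcoef]
    apply Finset.sum_eq_zero
    intro k hk
    have := (hF.bound hn1 le_rfl hk).1
    rw [if_neg (by omega)]
  have hlead : (toPP P).coeff n = C a := by
    rw [hcoef, Finset.sum_eq_single_of_mem _ hmem]
    · rw [if_pos (by simp), ha']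
      simp
    · intro k hk hk2
      have := (hF.bound hn1 le_rfl hk).2.2 hk2
      rw [if_neg (by omega)]
  obtain ⟨G, hG⟩ : ∃ G : ℚ[X][X], G = C (C a⁻¹) * toPP P := ⟨_, rfl⟩
  have hGn : G.coeff n = 1 := by
    rw [hG, coeff_C_mul, hlead, ← C_mul, inv_mul_cancel₀ ha0, C_1]
  have hGd : G.natDegree ≤ n := by
    rw [hG]
    exact (natDegree_C_mul_le _ _).trans hdeg
  have hGm : G.Monic := monic_of_natDegree_le_of_coeff_eq_one _ hGd hGn
  have hGdn : G.natDegree = n :=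
    le_antisymm hGd (le_natDegree_of_ne_zero (by rw [hGn]; exact one_ne_zero))
  have hu : IsUnit (C (C a⁻¹) : ℚ[X][X]) :=
    isUnit_C.2 (isUnit_C.2 (isUnit_iff_ne_zero.2 (inv_ne_zero ha0)))
  have hThG : The m G = C (C a⁻¹) * The m (toPP P) := by
    rw [hG, map_mul, The_C, map_C]
  suffices hGirr : Irreducible G by
    rw [hG, irreducible_isUnit_mul hu] at hGirr
    rw [← hP]
    rw [← MulEquiv.irreducible_iff isoPP]
    exact hGirr
  by_contra hcon
  rw [hGm.irreducible_iff_natDegree'] at hcon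
  push Not at hcon
  obtain ⟨f, g, hf, hg, hfg, hg2⟩ := hcon (by
    rintro rfl
    rw [natDegree_one] at hGdn
    omega)
  rw [hGdn, Finset.mem_Ioc] at hg2
  have hsum : f.natDegree + g.natDegree = n := by
    rw [← hf.natDegree_mul hg, hfg, hGdn]
  have hlm := lead_mul m (m * n) f g hf hg (by rw [hsum]) (by
    rw [hfg, hThG]
    exact (natDegree_C_mul_le _ _).trans hPhi1)
  rw [hfg, hThG, coeff_C_mul, hPhi2] at hlm
  have e1 : C a⁻¹ * (C a * X ^ n + C b) = X ^ n - C (-b / a) := by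
    rw [mul_add, ← mul_assoc, ← C_mul, inv_mul_cancel₀ ha0, C_1, one_mul, ← C_mul, neg_div, C_neg,
      sub_neg_eq_add, div_eq_inv_mul]
  rw [e1] at hlm
  have hred2 : ¬ Irreducible (X ^ n - C (-b / a) : ℚ[X]) := by
    rw [← e1, irreducible_isUnit_mul (isUnit_C.2 (isUnit_iff_ne_zero.2 (inv_ne_zero ha0))), ← hbin]
    exact hred
  have hc0 : -b / a ≠ 0 := div_ne_zero (neg_ne_zero.2 hb0) ha0
  obtain ⟨_, hf2⟩ := lead_monic m f hf
  obtain ⟨_, hg3⟩ := lead_monic m g hg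
  have key : ∀ f : ℚ[X][X], f.Monic → f.natDegree = 1 → f ∣ G → False := by
    intro f hf h1 h2
    have h3 := hf.eq_X_add_C h1
    have h4 : f.eval (-(f.coeff 0)) = 0 := by
      rw [h3]; simp
    have h5 : G.eval (-(f.coeff 0)) = 0 := eval_eq_zero_of_dvd_of_eval_eq_zero h2 h4
    rw [hG, eval_mul, eval_C, hP, eval_toPP_cover] at h5
    have h6 : (C a⁻¹ : ℚ[X]) ≠ 0 := C_ne_zero.2 (inv_ne_zero ha0)
    rcases mul_eq_zero.1 h5 with h7 | h7
    · exact h6 h7
    · exact hq _ h7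
  rcases deg_factor hn _ hc0 hred2 _ _ hlm (by rw [hf2]; omega) (by rw [hg3]; omega) with h | h
  · exact key f hf (by rw [← hf2]; exact h) ⟨g, hfg.symm⟩
  · exact key g hg (by rw [← hg3]; exact h) ⟨f, by rw [mul_comm]; exact hfg.symm⟩

end Pool.Agent.K1H93.TC
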